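import Pool.Agent.PV57.Main

/-!
# Clearing denominators
-/

namespace Pool.PV57

open Polynomial

theorem clear (p : ℚ[X]) : ∃ (d : ℤ) (q : ℤ[X]), d ≠ 0 ∧
    q.map (Int.castRingHom ℚ) = C (d : ℚ) * p := by
  obtain ⟨b, hb0, hb⟩ := IsLocalization.integerNormalization_spec (nonZeroDivisors ℤ) p
  refine ⟨b, IsLocalization.integerNormalization (nonZeroDivisors ℤ) p,
    nonZeroDivisors.ne_zero hb0, ?_⟩
  have h : (algebraMap ℤ ℚ) = Int.castRingHom ℚ := rfl
  rw [← h, hb]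
  ext i
  simp [Algebra.smul_def]

theorem bezout {f g : ℤ[X]} (h : IsCoprime (f.map (Int.castRingHom ℚ)) (g.map (Int.castRingHom ℚ))) :
    ∃ (u v : ℤ[X]) (R : ℤ), R ≠ 0 ∧ u * f + v * g = C R := by
  obtain ⟨a, b, hab⟩ := h
  obtain ⟨d1, u, hd1, hu⟩ := clear a
  obtain ⟨d2, v, hd2, hv⟩ := clear b
  refine ⟨C d2 * u, C d1 * v, d1 * d2, mul_ne_zero hd1 hd2, ?_⟩
  apply Polynomial.map_injective (Int.castRingHom ℚ) Int.cast_injective
  rw [Polynomial.map_add, Polynomial.map_mul, Polynomial.map_mul, Polynomial.map_mul,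
    Polynomial.map_mul, hu, hv, map_C, map_C, map_C]
  simp only [eq_intCast, Int.cast_mul, C_mul]
  linear_combination (C (d1 : ℚ) * C (d2 : ℚ)) * hab

theorem bezout_prime {f g : ℤ[X]} {u v : ℤ[X]} {R : ℤ} (h : u * f + v * g = C R) {p : ℤ} {n : ℤ}
    (h1 : p ∣ f.eval n) (h2 : p ∣ g.eval n) : p ∣ R := by
  have := congrArg (Polynomial.eval n) h
  rw [eval_add, eval_mul, eval_mul, eval_C] at this
  rw [← this]
  exact dvd_add (h1.mul_left _) (h2.mul_left _)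

end Pool.PV57
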