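import Mathlib

/-!
# Decomposition of a number that is powerful away from `Δ`, and divisor bounds
-/

namespace Pool.PV57

open Finset

theorem exp_split (e : ℕ) (he : 2 ≤ e) : ∃ i j : ℕ, e = 2 * i + 3 * j := by
  rcases Nat.even_or_odd' e with ⟨k, hk | hk⟩
  · exact ⟨k, 0, by omega⟩
  · exact ⟨k - 1, 1, by omega⟩

/-- If every prime `p ∤ Δ` dividing `m` divides it twice, then `m = l * a ^ 2 * b ^ 3` with `a`, `b`
coprime to `Δ` and all prime factors of `l` dividing `Δ`. -/
theorem exists_decomp {m Δ : ℕ} (hm : m ≠ 0)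
    (h : ∀ p : ℕ, p.Prime → ¬ p ∣ Δ → p ∣ m → p ^ 2 ∣ m) :
    ∃ l a b : ℕ, m = l * a ^ 2 * b ^ 3 ∧ Nat.Coprime a Δ ∧ Nat.Coprime b Δ ∧
      ∀ p : ℕ, p.Prime → p ∣ l → p ∣ Δ := by
  classical
  have hex : ∀ p : ℕ, ∃ i j : ℕ, p ∈ m.primeFactors → ¬ p ∣ Δ → m.factorization p = 2 * i + 3 * j := by
    intro p
    by_cases hp : p ∈ m.primeFactors ∧ ¬ p ∣ Δ
    · have hpp := Nat.prime_of_mem_primeFactors hp.1
      have h2 := h p hpp hp.2 (Nat.dvd_of_mem_primeFactors hp.1)
      have h3 : 2 ≤ m.factorization p := (hpp.pow_dvd_iff_le_factorization hm).1 h2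
      obtain ⟨i, j, hij⟩ := exp_split _ h3
      exact ⟨i, j, fun _ _ => hij⟩
    · exact ⟨0, 0, fun h1 h2 => absurd ⟨h1, h2⟩ hp⟩
  choose i j hij using hex
  have hcop : ∀ e : ℕ → ℕ, Nat.Coprime (∏ p ∈ m.primeFactors, if p ∣ Δ then 1 else p ^ e p) Δ := by
    intro e
    apply Nat.Coprime.prod_left
    intro p hp
    split_ifs with hpd
    · exact Nat.coprime_one_left Δ
    · exact Nat.Coprime.pow_left _
        ((Nat.Prime.coprime_iff_not_dvd (Nat.prime_of_mem_primeFactors hp)).2 hpd)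
  refine ⟨∏ p ∈ m.primeFactors, if p ∣ Δ then p ^ m.factorization p else 1,
    ∏ p ∈ m.primeFactors, if p ∣ Δ then 1 else p ^ i p,
    ∏ p ∈ m.primeFactors, if p ∣ Δ then 1 else p ^ j p, ?_, hcop i, hcop j, ?_⟩
  · rw [← Finset.prod_pow, ← Finset.prod_pow, ← Finset.prod_mul_distrib, ← Finset.prod_mul_distrib]
    conv_lhs => rw [← Nat.prod_factorization_pow_eq_self hm]
    rw [Finsupp.prod, Nat.support_factorization]
    apply Finset.prod_congr rfl
    intro p hp
    split_ifs with hpd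
    · simp
    · rw [hij p hp hpd, one_mul, ← pow_mul, ← pow_mul, ← pow_add]
      congr 1
      ring
  · intro p hp hpl
    obtain ⟨q, hq, hpq⟩ := (Prime.dvd_finsetProd_iff hp.prime _).1 hpl
    split_ifs at hpq with hqd
    · have := (Nat.prime_dvd_prime_iff_eq hp (Nat.prime_of_mem_primeFactors hq)).1
        (hp.dvd_of_dvd_pow hpq)
      rwa [this]
    · exact absurd hpq (by simpa using hp.one_lt.ne')

/-- The numbers at most `2 ^ L` whose prime factors divide `Δ` divide `Δ ^ L`. -/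
theorem dvd_pow_of_le {l Δ L : ℕ} (hl : l ≠ 0) (hΔ : Δ ≠ 0) (hL : l ≤ 2 ^ L)
    (h : ∀ p : ℕ, p.Prime → p ∣ l → p ∣ Δ) : l ∣ Δ ^ L := by
  rw [← Nat.factorization_le_iff_dvd hl (pow_ne_zero _ hΔ)]
  intro p
  rw [Nat.factorization_pow]
  simp only [Finsupp.coe_smul, Pi.smul_apply, smul_eq_mul]
  by_cases hp : p ∈ l.primeFactors
  · have hpp := Nat.prime_of_mem_primeFactors hp
    have h1 : 1 ≤ Δ.factorization p :=
      (hpp.dvd_iff_one_le_factorization hΔ).1 (h p hpp (Nat.dvd_of_mem_primeFactors hp))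
    have h2 : l.factorization p ≤ L := by
      have h3 : p ^ l.factorization p ≤ l := Nat.le_of_dvd (Nat.pos_of_ne_zero hl)
        (Nat.ordProj_dvd l p)
      have h4 : 2 ^ l.factorization p ≤ 2 ^ L :=
        (Nat.pow_le_pow_left hpp.two_le _).trans (h3.trans hL)
      exact (Nat.pow_le_pow_iff_right (by norm_num)).1 h4
    nlinarith
  · have : l.factorization p = 0 := by
      rw [← Finsupp.notMem_support_iff, Nat.support_factorization]
      exact hp
    rw [this]
    exact Nat.zero_le _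

theorem card_divisors_pow_le {Δ : ℕ} (hΔ : Δ ≠ 0) (L : ℕ) :
    (Δ ^ L).divisors.card ≤ (L * Δ + 1) ^ Δ := by
  rw [Nat.card_divisors (pow_ne_zero _ hΔ)]
  have h1 : ∏ x ∈ (Δ ^ L).primeFactors, ((Δ ^ L).factorization x + 1) ≤
      ∏ _x ∈ (Δ ^ L).primeFactors, (L * Δ + 1) := by
    apply Finset.prod_le_prod'
    intro p hp
    rw [Nat.factorization_pow]
    simp only [Finsupp.coe_smul, Pi.smul_apply, smul_eq_mul]
    have : Δ.factorization p < Δ := Nat.factorization_lt p hΔ
    have := Nat.mul_le_mul_left L this.le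
    omega
  rw [Finset.prod_const] at h1
  refine h1.trans ?_
  apply Nat.pow_le_pow_right (Nat.succ_pos _)
  rcases Nat.eq_zero_or_pos L with rfl | hL
  · simp
  · rw [Nat.primeFactors_pow Δ hL.ne']
    calc Δ.primeFactors.card ≤ (Finset.Icc 1 Δ).card := by
          apply Finset.card_le_card
          intro p hp
          rw [Finset.mem_Icc]
          exact ⟨(Nat.prime_of_mem_primeFactors hp).pos,
            Nat.le_of_dvd (Nat.pos_of_ne_zero hΔ) (Nat.dvd_of_mem_primeFactors hp)⟩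
      _ = Δ := by simp

/-- `D ^ ω(m) ≤ C m ^ ε`. -/
theorem pow_omega_le (D : ℕ) (hD : 1 ≤ D) (ε : ℝ) (hε : 0 < ε) :
    ∃ C : ℝ, 0 < C ∧ ∀ m : ℕ, 0 < m → (D : ℝ) ^ m.primeFactors.card ≤ C * (m : ℝ) ^ ε := by
  classical
  obtain ⟨P, hP⟩ := exists_nat_ge ((D : ℝ) ^ (1 / ε))
  have hD1 : (1 : ℝ) ≤ D := by exact_mod_cast hD
  refine ⟨(D : ℝ) ^ P, by positivity, ?_⟩
  intro m hm
  have h1 : ∀ p ∈ m.primeFactors, (D : ℝ) ≤ (if p < P then (D : ℝ) else 1) * (p : ℝ) ^ ε := by
    intro p hp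
    have hp1 : (1 : ℝ) ≤ p := by exact_mod_cast (Nat.prime_of_mem_primeFactors hp).pos
    split_ifs with hpP
    · have : (1 : ℝ) ≤ (p : ℝ) ^ ε := Real.one_le_rpow hp1 hε.le
      nlinarith
    · rw [one_mul]
      push Not at hpP
      have h2 : (D : ℝ) ^ (1 / ε) ≤ p := hP.trans (by exact_mod_cast hpP)
      calc (D : ℝ) = ((D : ℝ) ^ (1 / ε)) ^ ε := by
            rw [← Real.rpow_mul (by positivity), one_div_mul_cancel hε.ne', Real.rpow_one]
        _ ≤ (p : ℝ) ^ ε := Real.rpow_le_rpow (by positivity) h2 hε.le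
  calc (D : ℝ) ^ m.primeFactors.card = ∏ _p ∈ m.primeFactors, (D : ℝ) := by
        rw [Finset.prod_const]
    _ ≤ ∏ p ∈ m.primeFactors, ((if p < P then (D : ℝ) else 1) * (p : ℝ) ^ ε) :=
        Finset.prod_le_prod (fun _ _ => by positivity) h1
    _ = (∏ p ∈ m.primeFactors, if p < P then (D : ℝ) else 1) *
          ∏ p ∈ m.primeFactors, (p : ℝ) ^ ε := Finset.prod_mul_distrib
    _ ≤ (D : ℝ) ^ P * (m : ℝ) ^ ε := by
        apply mul_le_mul
        · rw [Finset.prod_ite, Finset.prod_const, Finset.prod_const_one, mul_one]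
          apply pow_le_pow_right₀ hD1
          calc ((m.primeFactors.filter fun p => p < P)).card ≤ (range P).card := by
                apply Finset.card_le_card
                intro p hp
                exact mem_range.2 (mem_filter.1 hp).2
            _ = P := card_range P
        · rw [Real.finsetProd_rpow _ _ (fun _ _ => by positivity)]
          apply Real.rpow_le_rpow (by positivity) _ hε.le
          rw [← Nat.cast_prod]
          exact_mod_cast Nat.le_of_dvd hm (Nat.prod_primeFactors_dvd m)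
        · positivity
        · positivity

end Pool.PV57
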