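import Mathlib

/-!
# Gap principle: few points if any `k + 1` of them are spread
-/

namespace Pool.PV57

theorem card_le_of_gap (S : Finset ℕ) (N k : ℕ) (G : ℝ) (hG : 0 < G) (hS : ∀ n ∈ S, n ≤ N)
    (h : ∀ n : Fin (k + 1) → ℕ, StrictMono n → (∀ i, n i ∈ S) →
      G ≤ (n (Fin.last k) : ℝ) - (n 0 : ℝ)) :
    (S.card : ℝ) ≤ k * (N / G + 1) := by
  classical
  have himg : (S.image fun n : ℕ => ⌊(n : ℝ) / G⌋₊) ⊆ Finset.range (⌊(N : ℝ) / G⌋₊ + 1) := by
    intro m hm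
    obtain ⟨n, hn, rfl⟩ := Finset.mem_image.1 hm
    rw [Finset.mem_range, Nat.lt_succ_iff]
    apply Nat.floor_le_floor
    have : (n : ℝ) ≤ N := by exact_mod_cast hS n hn
    gcongr
  have hfib : ∀ m ∈ S.image (fun n : ℕ => ⌊(n : ℝ) / G⌋₊),
      (S.filter fun n : ℕ => ⌊(n : ℝ) / G⌋₊ = m).card ≤ k := by
    intro m _
    by_contra hcon
    push Not at hcon
    obtain ⟨T, hT, hTc⟩ := Finset.exists_subset_card_eq (Nat.succ_le_of_lt hcon)
    have hmem : ∀ i, T.orderEmbOfFin hTc i ∈ S.filter fun n : ℕ => ⌊(n : ℝ) / G⌋₊ = m :=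
      fun i => hT (Finset.orderEmbOfFin_mem T hTc i)
    have h1 := h (T.orderEmbOfFin hTc) (T.orderEmbOfFin hTc).strictMono
      (fun i => (Finset.mem_filter.1 (hmem i)).1)
    have ha := (Finset.mem_filter.1 (hmem 0)).2
    have hb := (Finset.mem_filter.1 (hmem (Fin.last k))).2
    have ha' : (m : ℝ) ≤ (T.orderEmbOfFin hTc 0 : ℝ) / G := by
      rw [← ha]
      exact Nat.floor_le (by positivity)
    have hb' : (T.orderEmbOfFin hTc (Fin.last k) : ℝ) / G < m + 1 := by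
      rw [← hb]
      exact Nat.lt_floor_add_one _
    rw [le_div_iff₀ hG] at ha'
    rw [div_lt_iff₀ hG] at hb'
    nlinarith
  have h1 := Finset.card_le_mul_card_image S k hfib
  have h2 := Finset.card_le_card himg
  rw [Finset.card_range] at h2
  have h3 : ((⌊(N : ℝ) / G⌋₊ + 1 : ℕ) : ℝ) ≤ N / G + 1 := by
    push_cast
    have := Nat.floor_le (show 0 ≤ (N : ℝ) / G by positivity)
    linarith
  calc (S.card : ℝ) ≤ ((k * (⌊(N : ℝ) / G⌋₊ + 1) : ℕ) : ℝ) := by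
        exact_mod_cast h1.trans (Nat.mul_le_mul_left k h2)
    _ = k * ((⌊(N : ℝ) / G⌋₊ + 1 : ℕ) : ℝ) := by push_cast; ring
    _ ≤ k * (N / G + 1) := by gcongr

end Pool.PV57
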