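import Mathlib

/-!
# The number of `n ≤ N` with `m ∣ f(n)`, for `m` coprime to the discriminant
-/

namespace Pool.PV57

open Polynomial Finset

/-- Data of a separable integer polynomial. -/
structure Sep (f : ℤ[X]) (Δ : ℕ) : Prop where
  pos : 0 < Δ
  lead : ∀ p : ℕ, p.Prime → (p : ℤ) ∣ f.leadingCoeff → p ∣ Δ
  disc : ∀ p : ℕ, p.Prime → ∀ n : ℤ, (p : ℤ) ∣ f.eval n → (p : ℤ) ∣ f.derivative.eval n → p ∣ Δ

theorem roots_mod_prime {f : ℤ[X]} {Δ : ℕ} (hf : Sep f Δ) {p : ℕ} (hp : p.Prime) (hpΔ : ¬ p ∣ Δ) :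
    ((range p).filter fun r : ℕ => (p : ℤ) ∣ f.eval (r : ℤ)).card ≤ f.natDegree := by
  classical
  have : Fact p.Prime := ⟨hp⟩
  set F : (ZMod p)[X] := f.map (Int.castRingHom (ZMod p)) with hF
  have hlead : (Int.castRingHom (ZMod p)) f.leadingCoeff ≠ 0 := by
    intro h0
    apply hpΔ
    apply hf.lead p hp
    have : ((f.leadingCoeff : ℤ) : ZMod p) = 0 := by simpa using h0
    exact (ZMod.intCast_zmod_eq_zero_iff_dvd _ _).1 this |> fun h => by simpa using h
  have hF0 : F ≠ 0 := by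
    intro h0
    apply hlead
    have : F.coeff f.natDegree = 0 := by rw [h0]; simp
    rw [hF, coeff_map] at this
    exact this
  have hmap : ((range p).filter fun r : ℕ => (p : ℤ) ∣ f.eval (r : ℤ)).card ≤
      F.roots.toFinset.card := by
    apply card_le_card_of_injOn (fun r : ℕ => (r : ZMod p))
    · intro r hr
      have hr' := (mem_filter.1 hr).2
      simp only [mem_coe, Multiset.mem_toFinset, mem_roots hF0, IsRoot.def]
      rw [hF, eval_map]
      have h1 : eval₂ (Int.castRingHom (ZMod p)) (r : ZMod p) f =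
          (Int.castRingHom (ZMod p)) (f.eval (r : ℤ)) := by
        have := Polynomial.hom_eval₂ f (RingHom.id ℤ) (Int.castRingHom (ZMod p)) (r : ℤ)
        simp only [RingHom.comp_id] at this
        rw [show (r : ZMod p) = (Int.castRingHom (ZMod p)) (r : ℤ) by simp, ← this]
        rfl
      rw [h1]
      have h2 : ((f.eval (r : ℤ) : ℤ) : ZMod p) = 0 :=
        (ZMod.intCast_zmod_eq_zero_iff_dvd _ _).2 hr'
      simpa using h2
    · intro a ha b hb hab
      have ha' := mem_range.1 (mem_filter.1 ha).1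
      have hb' := mem_range.1 (mem_filter.1 hb).1
      have h1 := (ZMod.natCast_eq_natCast_iff' a b p).1 hab
      rwa [Nat.mod_eq_of_lt ha', Nat.mod_eq_of_lt hb'] at h1
  calc _ ≤ F.roots.toFinset.card := hmap
    _ ≤ Multiset.card F.roots := Multiset.toFinset_card_le _
    _ ≤ F.natDegree := card_roots' F
    _ ≤ f.natDegree := natDegree_map_le

theorem dvd_sub_of_roots {f : ℤ[X]} {Δ : ℕ} (hf : Sep f Δ) {m : ℕ} (hm : 0 < m)
    (hmΔ : Nat.Coprime m Δ) {n n' : ℕ} (h : (m : ℤ) ∣ f.eval (n : ℤ))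
    (h' : (m : ℤ) ∣ f.eval (n' : ℤ)) (hp : ∀ p ∈ m.primeFactors, n % p = n' % p) :
    (m : ℤ) ∣ (n' : ℤ) - n := by
  obtain ⟨k, hk⟩ := f.binomExpansion (n : ℤ) ((n' : ℤ) - n)
  have hsum : (n : ℤ) + ((n' : ℤ) - n) = n' := by ring
  rw [hsum] at hk
  have h1 : (m : ℤ) ∣ ((n' : ℤ) - n) * (f.derivative.eval (n : ℤ) + k * ((n' : ℤ) - n)) := by
    have h2 : ((n' : ℤ) - n) * (f.derivative.eval (n : ℤ) + k * ((n' : ℤ) - n)) =
        f.eval (n' : ℤ) - f.eval (n : ℤ) := by rw [hk]; ring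
    rw [h2]
    exact dvd_sub h' h
  have hcop : IsCoprime (m : ℤ) (f.derivative.eval (n : ℤ) + k * ((n' : ℤ) - n)) := by
    rw [Int.isCoprime_iff_gcd_eq_one]
    by_contra hne
    obtain ⟨p, hp1, hp2⟩ := Nat.exists_prime_and_dvd hne
    have hpm : (p : ℤ) ∣ m := (Int.natCast_dvd_natCast.2 hp2).trans (Int.gcd_dvd_left _ _)
    have hph : (p : ℤ) ∣ f.derivative.eval (n : ℤ) + k * ((n' : ℤ) - n) :=
      (Int.natCast_dvd_natCast.2 hp2).trans (Int.gcd_dvd_right _ _)
    have hpm' : p ∣ m := Int.natCast_dvd_natCast.1 hpm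
    have hmod := hp p (Nat.mem_primeFactors.2 ⟨hp1, hpm', hm.ne'⟩)
    have hsub : (p : ℤ) ∣ (n' : ℤ) - n := (Nat.modEq_iff_dvd (n := p)).1 hmod
    have hder : (p : ℤ) ∣ f.derivative.eval (n : ℤ) :=
      (dvd_add_left (hsub.mul_left k)).1 hph
    have hpΔ := hf.disc p hp1 n (hpm.trans h) hder
    have := Nat.Coprime.eq_one_of_dvd (Nat.Coprime.coprime_dvd_left hpm' hmΔ) hpΔ
    exact hp1.one_lt.ne' this
  exact hcop.dvd_of_dvd_mul_right h1

theorem card_dvd_le {f : ℤ[X]} {Δ : ℕ} (hf : Sep f Δ) {m : ℕ} (hm : 0 < m)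
    (hmΔ : Nat.Coprime m Δ) (N : ℕ) :
    ((range (N + 1)).filter fun n : ℕ => (m : ℤ) ∣ f.eval (n : ℤ)).card ≤
      (N / m + 1) * f.natDegree ^ m.primeFactors.card := by
  classical
  set T := (range (N + 1)).filter fun n : ℕ => (m : ℤ) ∣ f.eval (n : ℤ) with hT
  let φ : ℕ → (m.primeFactors → ℕ) := fun n p => n % (p : ℕ)
  have himg : T.image φ ⊆ Fintype.piFinset (fun p : m.primeFactors =>
      (range (p : ℕ)).filter fun r : ℕ => ((p : ℕ) : ℤ) ∣ f.eval (r : ℤ)) := by
    intro y hy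
    obtain ⟨n, hn, rfl⟩ := mem_image.1 hy
    rw [Fintype.mem_piFinset]
    intro p
    have hpp := Nat.prime_of_mem_primeFactors p.2
    have hpm := Nat.dvd_of_mem_primeFactors p.2
    rw [mem_filter, mem_range]
    refine ⟨Nat.mod_lt _ hpp.pos, ?_⟩
    have h1 : ((p : ℕ) : ℤ) ∣ f.eval (n : ℤ) :=
      (Int.natCast_dvd_natCast.2 hpm).trans (mem_filter.1 hn).2
    have h2 : ((p : ℕ) : ℤ) ∣ (n : ℤ) - ((n % (p : ℕ) : ℕ) : ℤ) := by
      rw [Int.natCast_mod]
      exact Int.dvd_self_sub_emod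
    have h3 : ((p : ℕ) : ℤ) ∣ f.eval (n : ℤ) - f.eval ((n % (p : ℕ) : ℕ) : ℤ) :=
      h2.trans (sub_dvd_eval_sub _ _ f)
    exact (dvd_sub_right h1).1 h3
  have hfib : ∀ y ∈ T.image φ, (T.filter fun n => φ n = y).card ≤ N / m + 1 := by
    intro y _
    have : (T.filter fun n => φ n = y).card ≤ (range (N / m + 1)).card := by
      apply card_le_card_of_injOn (fun n => n / m)
      · intro n hn
        have hn' := mem_range.1 (mem_filter.1 (mem_filter.1 hn).1).1
        simp only [coe_range, Set.mem_Iio]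
        exact Nat.lt_succ_of_le (Nat.div_le_div_right (Nat.lt_succ_iff.1 hn'))
      · intro a ha b hb hab
        have ha' := mem_filter.1 ha
        have hb' := mem_filter.1 hb
        have h1 : (m : ℤ) ∣ (b : ℤ) - a := by
          refine dvd_sub_of_roots hf hm hmΔ (mem_filter.1 ha'.1).2 (mem_filter.1 hb'.1).2 ?_
          intro p hp
          have := congrFun (ha'.2.trans hb'.2.symm) ⟨p, hp⟩
          exact this
        have h2 : a ≡ b [MOD m] := (Nat.modEq_iff_dvd).2 h1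
        have h3 : a % m = b % m := h2
        have h4 : a / m = b / m := hab
        rw [← Nat.div_add_mod a m, ← Nat.div_add_mod b m, h3, h4]
    rwa [card_range] at this
  have h1 := card_le_mul_card_image T (N / m + 1) hfib
  have h2 := card_le_card himg
  rw [Fintype.card_piFinset] at h2
  have h3 : ∏ p : m.primeFactors, ((range (p : ℕ)).filter fun r : ℕ =>
      ((p : ℕ) : ℤ) ∣ f.eval (r : ℤ)).card ≤ ∏ _p : m.primeFactors, f.natDegree := by
    apply Finset.prod_le_prod' 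
    intro p _
    apply roots_mod_prime hf (Nat.prime_of_mem_primeFactors p.2)
    intro hpΔ
    have := Nat.Coprime.eq_one_of_dvd
      (Nat.Coprime.coprime_dvd_left (Nat.dvd_of_mem_primeFactors p.2) hmΔ) hpΔ
    exact (Nat.prime_of_mem_primeFactors p.2).one_lt.ne' this
  rw [Finset.prod_const, Finset.card_univ, Fintype.card_coe] at h3
  exact h1.trans (Nat.mul_le_mul_left _ (h2.trans h3))

end Pool.PV57
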