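import Pool.Agent.PV57.Points
import Pool.Agent.PV57.Gap
import Pool.Agent.PV57.Mod
import Pool.Agent.PV57.Decomp

/-!
# Counting lemmas
-/

namespace Pool.PV57

open Polynomial Finset

theorem card_sq {F : ℝ[X]} {X0 K : ℝ} (hG : Good F X0 K) {l : ℕ} (hl : 0 < l) {N : ℕ} {M : ℝ}
    (hM : X0 ≤ M) {S : Finset ℕ}
    (hS : ∀ n ∈ S, M ≤ n ∧ n ≤ N ∧ ∃ y : ℕ, F.eval (n : ℝ) = l * (y : ℝ) ^ 2) :
    (S.card : ℝ) ≤ 3 * (N / (M / K) ^ (1 / 6 : ℝ) + 1) := by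
  have hK : 0 < K := hG.2.1
  have hM0 : 0 < M := by linarith [hG.1]
  have := card_le_of_gap S N 3 ((M / K) ^ (1 / 6 : ℝ)) (by positivity) (fun n hn => (hS n hn).2.1) ?_
  · exact_mod_cast this
  intro n hn hmem
  choose y hy using fun i => (hS (n i) (hmem i)).2.2
  have h1 := sq_gap hG hl hn (hM.trans (hS _ (hmem 0)).1) hy
  have h2 : M / K ≤ ((n 3 : ℝ) - n 0) ^ 6 := by
    rw [div_le_iff₀ hK]
    linarith [(hS _ (hmem 0)).1]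
  have h3 : (0 : ℝ) ≤ (n 3 : ℝ) - n 0 := by
    have : (n 0 : ℝ) < n 3 := by exact_mod_cast hn (show (0 : Fin 4) < 3 by decide)
    linarith
  calc (M / K) ^ (1 / 6 : ℝ) ≤ (((n 3 : ℝ) - n 0) ^ 6) ^ (1 / 6 : ℝ) :=
        Real.rpow_le_rpow (by positivity) h2 (by norm_num)
    _ = (n (Fin.last 3) : ℝ) - n 0 := by
        rw [← Real.rpow_natCast, ← Real.rpow_mul h3]
        norm_num
        rfl

theorem card_cb {F : ℝ[X]} {X0 K : ℝ} (hG : Good F X0 K) {l : ℕ} (hl : 0 < l) {N : ℕ} {M : ℝ}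
    (hM : X0 ≤ M) {S : Finset ℕ}
    (hS : ∀ n ∈ S, M ≤ n ∧ n ≤ N ∧ ∃ y : ℕ, F.eval (n : ℝ) = l * (y : ℝ) ^ 3) :
    (S.card : ℝ) ≤ 2 * (N / (M ^ (2 / 3 : ℝ) / K) ^ (1 / 3 : ℝ) + 1) := by
  have hK : 0 < K := hG.2.1
  have hM0 : 0 < M := by linarith [hG.1]
  have := card_le_of_gap S N 2 ((M ^ (2 / 3 : ℝ) / K) ^ (1 / 3 : ℝ)) (by positivity)
    (fun n hn => (hS n hn).2.1) ?_
  · exact_mod_cast this
  intro n hn hmem
  choose y hy using fun i => (hS (n i) (hmem i)).2.2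
  have h1 := cb_gap hG hl hn (hM.trans (hS _ (hmem 0)).1) hy
  have h2 : M ^ (2 / 3 : ℝ) / K ≤ ((n 2 : ℝ) - n 0) ^ 3 := by
    rw [div_le_iff₀ hK]
    have : M ^ (2 / 3 : ℝ) ≤ (n 0 : ℝ) ^ (2 / 3 : ℝ) :=
      Real.rpow_le_rpow hM0.le (hS _ (hmem 0)).1 (by norm_num)
    linarith
  have h3 : (0 : ℝ) ≤ (n 2 : ℝ) - n 0 := by
    have : (n 0 : ℝ) < n 2 := by exact_mod_cast hn (show (0 : Fin 3) < 2 by decide)
    linarith
  calc (M ^ (2 / 3 : ℝ) / K) ^ (1 / 3 : ℝ) ≤ (((n 2 : ℝ) - n 0) ^ 3) ^ (1 / 3 : ℝ) :=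
        Real.rpow_le_rpow (by positivity) h2 (by norm_num)
    _ = (n (Fin.last 2) : ℝ) - n 0 := by
        rw [← Real.rpow_natCast, ← Real.rpow_mul h3]
        norm_num
        rfl

/-- The number of possible `Δ`-parts. -/
theorem lam_count {Δ c : ℕ} (hΔ : 0 < Δ) (hc : 0 < c) :
    ∃ C : ℝ, 0 < C ∧ ∀ N : ℕ, 1 ≤ N →
      (((Δ ^ (Nat.log 2 (c * N ^ 4) + 1)).divisors.card : ℕ) : ℝ) ≤ C * (N : ℝ) ^ (1 / 36 : ℝ) := by
  set η : ℝ := 1 / (144 * Δ) with hη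
  have hη0 : 0 < η := by positivity
  have hlog2 : 0 < Real.log 2 := Real.log_pos (by norm_num)
  set A : ℝ := ((c : ℝ) ^ η / η / Real.log 2 + 1) * Δ + 1 with hA
  have hA0 : 0 < A := by positivity
  refine ⟨A ^ Δ, by positivity, ?_⟩
  intro N hN
  have hN1 : (1 : ℝ) ≤ N := by exact_mod_cast hN
  have hN0 : (0 : ℝ) < N := by linarith
  have h1 : (((Δ ^ (Nat.log 2 (c * N ^ 4) + 1)).divisors.card : ℕ) : ℝ) ≤
      (((Nat.log 2 (c * N ^ 4) + 1 : ℕ) : ℝ) * Δ + 1) ^ Δ := by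
    exact_mod_cast card_divisors_pow_le hΔ.ne' _
  refine h1.trans ?_
  have h2 : ((Nat.log 2 (c * N ^ 4) : ℕ) : ℝ) ≤ (c : ℝ) ^ η / η / Real.log 2 * (N : ℝ) ^ (4 * η) := by
    have h3 : ((Nat.log 2 (c * N ^ 4) : ℕ) : ℝ) ≤ Real.log (c * N ^ 4) / Real.log 2 := by
      have hpos : c * N ^ 4 ≠ 0 := by positivity
      have h4 : (2 : ℝ) ^ (Nat.log 2 (c * N ^ 4)) ≤ c * N ^ 4 := by
        exact_mod_cast Nat.pow_log_le_self 2 hpos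
      rw [le_div_iff₀ hlog2, ← Real.log_pow]
      exact Real.log_le_log (by positivity) h4
    have h5 : Real.log (c * N ^ 4) ≤ ((c : ℝ) * N ^ 4) ^ η / η :=
      Real.log_le_rpow_div (by positivity) hη0
    have h6 : ((c : ℝ) * N ^ 4) ^ η = (c : ℝ) ^ η * (N : ℝ) ^ (4 * η) := by
      rw [Real.mul_rpow (by positivity) (by positivity), ← Real.rpow_natCast,
        ← Real.rpow_mul (by positivity)]
      norm_num
    calc _ ≤ Real.log (c * N ^ 4) / Real.log 2 := h3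
      _ ≤ (((c : ℝ) * N ^ 4) ^ η / η) / Real.log 2 := by gcongr
      _ = _ := by rw [h6]; ring
  have hN4 : (1 : ℝ) ≤ (N : ℝ) ^ (4 * η) := Real.one_le_rpow hN1 (by positivity)
  have h7 : ((Nat.log 2 (c * N ^ 4) + 1 : ℕ) : ℝ) * Δ + 1 ≤ A * (N : ℝ) ^ (4 * η) := by
    push_cast
    have h8 : ((Nat.log 2 (c * N ^ 4) : ℕ) : ℝ) + 1 ≤
        ((c : ℝ) ^ η / η / Real.log 2 + 1) * (N : ℝ) ^ (4 * η) := by nlinarith
    have hΔ0 : (0 : ℝ) ≤ Δ := by positivity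
    calc ((Nat.log 2 (c * N ^ 4) : ℝ) + 1) * Δ + 1
        ≤ (((c : ℝ) ^ η / η / Real.log 2 + 1) * (N : ℝ) ^ (4 * η)) * Δ + (N : ℝ) ^ (4 * η) := by
          gcongr
      _ = A * (N : ℝ) ^ (4 * η) := by rw [hA]; ring
  calc (((Nat.log 2 (c * N ^ 4) + 1 : ℕ) : ℝ) * Δ + 1) ^ Δ ≤ (A * (N : ℝ) ^ (4 * η)) ^ Δ := by
        gcongr
    _ = A ^ Δ * (N : ℝ) ^ (1 / 36 : ℝ) := by
        rw [mul_pow, ← Real.rpow_natCast ((N : ℝ) ^ (4 * η)), ← Real.rpow_mul (by positivity)]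
        congr 2
        rw [hη]
        have : (Δ : ℝ) ≠ 0 := by positivity
        field_simp
        norm_num

end Pool.PV57
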