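import Pool.Agent.PV57.Mid

/-!
# The covering argument
-/

namespace Pool.PV57

open Polynomial Finset

open Classical in
/-- Points on `l y ^ 2 = F(x)`. -/
noncomputable def sqSet (F : ℝ[X]) (N l : ℕ) : Finset ℕ :=
  (range (N + 1)).filter fun n : ℕ => (N : ℝ) ^ (23 / 24 : ℝ) ≤ n ∧
    ∃ y : ℕ, F.eval (n : ℝ) = l * (y : ℝ) ^ 2

open Classical in
/-- Points on `l y ^ 3 = F(x)`. -/
noncomputable def cbSet (F : ℝ[X]) (N l : ℕ) : Finset ℕ :=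
  (range (N + 1)).filter fun n : ℕ => (N : ℝ) ^ (23 / 24 : ℝ) ≤ n ∧
    ∃ y : ℕ, F.eval (n : ℝ) = l * (y : ℝ) ^ 3

theorem mem_sqSet {F : ℝ[X]} {N l n : ℕ} : n ∈ sqSet F N l ↔ n ≤ N ∧ (N : ℝ) ^ (23 / 24 : ℝ) ≤ n ∧
    ∃ y : ℕ, F.eval (n : ℝ) = l * (y : ℝ) ^ 2 := by
  simp only [sqSet, mem_filter, mem_range, Nat.lt_succ_iff]

theorem mem_cbSet {F : ℝ[X]} {N l n : ℕ} : n ∈ cbSet F N l ↔ n ≤ N ∧ (N : ℝ) ^ (23 / 24 : ℝ) ≤ n ∧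
    ∃ y : ℕ, F.eval (n : ℝ) = l * (y : ℝ) ^ 3 := by
  simp only [cbSet, mem_filter, mem_range, Nat.lt_succ_iff]

theorem sqSet_le {F : ℝ[X]} {X0 K : ℝ} (hG : Good F X0 K) :
    ∃ C : ℝ, 0 < C ∧ ∀ N l : ℕ, 1 ≤ N → 0 < l → X0 ≤ (N : ℝ) ^ (23 / 24 : ℝ) →
      ((sqSet F N l).card : ℝ) ≤ C * (N : ℝ) ^ (121 / 144 : ℝ) := by
  have hK := hG.2.1
  refine ⟨3 * (K ^ (1 / 6 : ℝ) + 1), by positivity, ?_⟩
  intro N l hN hl hM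
  have hN1 : (1 : ℝ) ≤ N := by exact_mod_cast hN
  have hN0 : (0 : ℝ) < N := by linarith
  have h1 := card_sq hG hl (N := N) hM (S := sqSet F N l) (by
    intro n hn
    obtain ⟨h1, h2, h3⟩ := mem_sqSet.1 hn
    exact ⟨h2, h1, h3⟩)
  refine h1.trans ?_
  have h2 : (N : ℝ) / ((N : ℝ) ^ (23 / 24 : ℝ) / K) ^ (1 / 6 : ℝ) =
      K ^ (1 / 6 : ℝ) * (N : ℝ) ^ (121 / 144 : ℝ) := by
    rw [Real.div_rpow (by positivity) hK.le, ← Real.rpow_mul hN0.le, div_div_eq_mul_div,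
      div_eq_iff (by positivity)]
    calc (N : ℝ) * K ^ (1 / 6 : ℝ) = K ^ (1 / 6 : ℝ) * (N : ℝ) ^ (1 : ℝ) := by
          rw [Real.rpow_one]; ring
      _ = K ^ (1 / 6 : ℝ) * (N : ℝ) ^ (121 / 144 + 23 / 24 * (1 / 6) : ℝ) := by norm_num
      _ = _ := by rw [Real.rpow_add hN0]; ring
  rw [h2]
  have h3 : (1 : ℝ) ≤ (N : ℝ) ^ (121 / 144 : ℝ) := Real.one_le_rpow hN1 (by norm_num)
  have h4 : K ^ (1 / 6 : ℝ) * (N : ℝ) ^ (121 / 144 : ℝ) + 1 ≤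
      (K ^ (1 / 6 : ℝ) + 1) * (N : ℝ) ^ (121 / 144 : ℝ) := by
    rw [add_mul, one_mul]
    linarith
  calc 3 * (K ^ (1 / 6 : ℝ) * (N : ℝ) ^ (121 / 144 : ℝ) + 1)
      ≤ 3 * ((K ^ (1 / 6 : ℝ) + 1) * (N : ℝ) ^ (121 / 144 : ℝ)) := by linarith
    _ = _ := by ring

theorem cbSet_le {F : ℝ[X]} {X0 K : ℝ} (hG : Good F X0 K) :
    ∃ C : ℝ, 0 < C ∧ ∀ N l : ℕ, 1 ≤ N → 0 < l → X0 ≤ (N : ℝ) ^ (23 / 24 : ℝ) →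
      ((cbSet F N l).card : ℝ) ≤ C * (N : ℝ) ^ (121 / 144 : ℝ) := by
  have hK := hG.2.1
  refine ⟨2 * (K ^ (1 / 3 : ℝ) + 1), by positivity, ?_⟩
  intro N l hN hl hM
  have hN1 : (1 : ℝ) ≤ N := by exact_mod_cast hN
  have hN0 : (0 : ℝ) < N := by linarith
  have h1 := card_cb hG hl (N := N) hM (S := cbSet F N l) (by
    intro n hn
    obtain ⟨h1, h2, h3⟩ := mem_cbSet.1 hn
    exact ⟨h2, h1, h3⟩)
  refine h1.trans ?_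
  have h2 : (N : ℝ) / (((N : ℝ) ^ (23 / 24 : ℝ)) ^ (2 / 3 : ℝ) / K) ^ (1 / 3 : ℝ) =
      K ^ (1 / 3 : ℝ) * (N : ℝ) ^ (85 / 108 : ℝ) := by
    rw [← Real.rpow_mul hN0.le, Real.div_rpow (by positivity) hK.le, ← Real.rpow_mul hN0.le,
      div_div_eq_mul_div, div_eq_iff (by positivity)]
    calc (N : ℝ) * K ^ (1 / 3 : ℝ) = K ^ (1 / 3 : ℝ) * (N : ℝ) ^ (1 : ℝ) := by
          rw [Real.rpow_one]; ring
      _ = K ^ (1 / 3 : ℝ) * (N : ℝ) ^ (85 / 108 + 23 / 24 * (2 / 3) * (1 / 3) : ℝ) := by norm_num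
      _ = _ := by rw [Real.rpow_add hN0]; ring
  rw [h2]
  have h3 : (1 : ℝ) ≤ (N : ℝ) ^ (121 / 144 : ℝ) := Real.one_le_rpow hN1 (by norm_num)
  have h5 : (N : ℝ) ^ (85 / 108 : ℝ) ≤ (N : ℝ) ^ (121 / 144 : ℝ) :=
    Real.rpow_le_rpow_of_exponent_le hN1 (by norm_num)
  calc 2 * (K ^ (1 / 3 : ℝ) * (N : ℝ) ^ (85 / 108 : ℝ) + 1)
      ≤ 2 * (K ^ (1 / 3 : ℝ) * (N : ℝ) ^ (121 / 144 : ℝ) + (N : ℝ) ^ (121 / 144 : ℝ)) := by gcongr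
    _ = _ := by ring

/-- The number of pairs `(l, b)`. -/
theorem union_le {Δ c : ℕ} (hΔ : 0 < Δ) (hc : 0 < c) (C0 : ℝ) (hC0 : 0 < C0) :
    ∃ C : ℝ, 0 < C ∧ ∀ N : ℕ, 1 ≤ N → ∀ S : ℕ × ℕ → Finset ℕ,
      (∀ p, 0 < p.1 → 0 < p.2 → ((S p).card : ℝ) ≤ C0 * (N : ℝ) ^ (121 / 144 : ℝ)) →
      ((((Δ ^ (Nat.log 2 (c * N ^ 4) + 1)).divisors ×ˢ
        Icc 1 ⌊(N : ℝ) ^ (1 / 12 : ℝ)⌋₊).biUnion S).card : ℝ) ≤ C * (N : ℝ) ^ (23 / 24 : ℝ) := by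
  obtain ⟨C4, hC4, h4⟩ := lam_count hΔ hc
  refine ⟨C4 * C0, by positivity, ?_⟩
  intro N hN S hS
  have hN1 : (1 : ℝ) ≤ N := by exact_mod_cast hN
  have hN0 : (0 : ℝ) < N := by linarith
  set T := (Δ ^ (Nat.log 2 (c * N ^ 4) + 1)).divisors ×ˢ Icc 1 ⌊(N : ℝ) ^ (1 / 12 : ℝ)⌋₊ with hT
  have h1 : ((T.biUnion S).card : ℝ) ≤ ∑ p ∈ T, ((S p).card : ℝ) := by
    exact_mod_cast card_biUnion_le
  have h2 : ∑ p ∈ T, ((S p).card : ℝ) ≤ T.card * (C0 * (N : ℝ) ^ (121 / 144 : ℝ)) := by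
    rw [← nsmul_eq_mul]
    apply sum_le_card_nsmul
    intro p hp
    obtain ⟨hp1, hp2⟩ := mem_product.1 hp
    exact hS p (Nat.pos_of_mem_divisors hp1) (mem_Icc.1 hp2).1
  have h3 : (T.card : ℝ) ≤ C4 * (N : ℝ) ^ (1 / 36 : ℝ) * (N : ℝ) ^ (1 / 12 : ℝ) := by
    rw [hT, card_product, Nat.card_Icc, Nat.add_sub_cancel]
    push_cast
    have := Nat.floor_le (show 0 ≤ (N : ℝ) ^ (1 / 12 : ℝ) by positivity)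
    have := h4 N hN
    gcongr
  calc _ ≤ _ := h1
    _ ≤ _ := h2
    _ ≤ C4 * (N : ℝ) ^ (1 / 36 : ℝ) * (N : ℝ) ^ (1 / 12 : ℝ) *
        (C0 * (N : ℝ) ^ (121 / 144 : ℝ)) := by gcongr
    _ = C4 * C0 * ((N : ℝ) ^ (1 / 36 : ℝ) * (N : ℝ) ^ (1 / 12 : ℝ) *
        (N : ℝ) ^ (121 / 144 : ℝ)) := by ring
    _ = C4 * C0 * (N : ℝ) ^ (137 / 144 : ℝ) := by
        rw [← Real.rpow_add hN0, ← Real.rpow_add hN0]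
        norm_num
    _ ≤ C4 * C0 * (N : ℝ) ^ (23 / 24 : ℝ) := by
        have := Real.rpow_le_rpow_of_exponent_le hN1 (show (137 / 144 : ℝ) ≤ 23 / 24 by norm_num)
        gcongr

end Pool.PV57
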