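import Mathlib

/-!
# Divided differences of order two and three
-/

namespace Pool.PV57

open Set

theorem rolle2 {g g1 g2 : ℝ → ℝ} {x0 x1 x2 : ℝ} (h01 : x0 < x1) (h12 : x1 < x2)
    (hg : ∀ x ∈ Icc x0 x2, HasDerivAt g (g1 x) x) (hg1 : ∀ x ∈ Icc x0 x2, HasDerivAt g1 (g2 x) x) :
    ∃ ξ ∈ Ioo x0 x2, g2 ξ * ((x1 - x0) * (x2 - x0) * (x2 - x1)) =
      2 * (g x2 * (x1 - x0) - g x1 * (x2 - x0) + g x0 * (x2 - x1)) := by
  have e01 : x1 - x0 ≠ 0 := (sub_pos.2 h01).ne'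
  have e12 : x2 - x1 ≠ 0 := (sub_pos.2 h12).ne'
  have e02 : x2 - x0 ≠ 0 := (sub_pos.2 (h01.trans h12)).ne'
  obtain ⟨c1, hc1⟩ : ∃ c1, c1 = (g x1 - g x0) / (x1 - x0) := ⟨_, rfl⟩
  obtain ⟨c2, hc2⟩ : ∃ c2, c2 = ((g x2 - g x0) / (x2 - x0) - c1) / (x2 - x1) := ⟨_, rfl⟩
  set φ : ℝ → ℝ := fun x => g x - (g x0 + c1 * (x - x0) + c2 * ((x - x0) * (x - x1))) with hφ
  set φ1 : ℝ → ℝ := fun x => g1 x - (c1 + c2 * ((x - x0) + (x - x1))) with hφ1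
  have hd : ∀ x ∈ Icc x0 x2, HasDerivAt φ (φ1 x) x := by
    intro x hx
    have h1 : HasDerivAt (fun y : ℝ => y - x0) 1 x := (hasDerivAt_id x).sub_const x0
    have h2 : HasDerivAt (fun y : ℝ => y - x1) 1 x := (hasDerivAt_id x).sub_const x1
    have := (hg x hx).sub (((h1.const_mul c1).const_add (g x0)).add ((h1.mul h2).const_mul c2))
    refine this.congr_deriv ?_
    simp only [hφ1]
    ring
  have hd1 : ∀ x ∈ Icc x0 x2, HasDerivAt φ1 (g2 x - 2 * c2) x := by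
    intro x hx
    have h1 : HasDerivAt (fun y : ℝ => y - x0) 1 x := (hasDerivAt_id x).sub_const x0
    have h2 : HasDerivAt (fun y : ℝ => y - x1) 1 x := (hasDerivAt_id x).sub_const x1
    have := (hg1 x hx).sub (((h1.add h2).const_mul c2).const_add c1)
    refine this.congr_deriv ?_
    ring
  have z0 : φ x0 = 0 := by simp [hφ]
  have z1 : φ x1 = 0 := by
    simp only [hφ, hc1]
    field_simp
    ring
  have z2 : φ x2 = 0 := by
    simp only [hφ, hc2]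
    field_simp
    ring
  obtain ⟨ξ1, ⟨a1, a2⟩, hξ1⟩ := exists_hasDerivAt_eq_zero (f := φ) (f' := φ1) h01
    (fun x hx => (hd x ⟨hx.1, hx.2.trans h12.le⟩).continuousAt.continuousWithinAt) (z0.trans z1.symm)
    (fun x hx => hd x ⟨hx.1.le, hx.2.le.trans h12.le⟩)
  obtain ⟨ξ2, ⟨b1, b2⟩, hξ2⟩ := exists_hasDerivAt_eq_zero (f := φ) (f' := φ1) h12
    (fun x hx => (hd x ⟨h01.le.trans hx.1, hx.2⟩).continuousAt.continuousWithinAt) (z1.trans z2.symm)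
    (fun x hx => hd x ⟨h01.le.trans hx.1.le, hx.2.le⟩)
  obtain ⟨ζ, ⟨d1, d2⟩, hζ⟩ := exists_hasDerivAt_eq_zero (f := φ1) (f' := fun x => g2 x - 2 * c2)
    (a2.trans b1)
    (fun x hx => (hd1 x ⟨a1.le.trans hx.1, hx.2.trans b2.le⟩).continuousAt.continuousWithinAt)
    (hξ1.trans hξ2.symm) (fun x hx => hd1 x ⟨a1.le.trans hx.1.le, hx.2.le.trans b2.le⟩)
  refine ⟨ζ, ⟨a1.trans d1, d2.trans b2⟩, ?_⟩
  have h2 : g2 ζ = 2 * c2 := by
    have h3 : g2 ζ - 2 * c2 = 0 := hζ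
    linarith
  rw [h2, hc2, hc1]
  field_simp
  ring

theorem rolle3 {g g1 g2 g3 : ℝ → ℝ} {x0 x1 x2 x3 : ℝ} (h01 : x0 < x1) (h12 : x1 < x2)
    (h23 : x2 < x3)
    (hg : ∀ x ∈ Icc x0 x3, HasDerivAt g (g1 x) x) (hg1 : ∀ x ∈ Icc x0 x3, HasDerivAt g1 (g2 x) x)
    (hg2 : ∀ x ∈ Icc x0 x3, HasDerivAt g2 (g3 x) x) :
    ∃ ξ ∈ Ioo x0 x3, g3 ξ * ((x1 - x0) * (x2 - x0) * (x3 - x0) * (x2 - x1) * (x3 - x1) * (x3 - x2)) =
      6 * (g x3 * ((x1 - x0) * (x2 - x0) * (x2 - x1)) - g x2 * ((x1 - x0) * (x3 - x0) * (x3 - x1)) +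
        g x1 * ((x2 - x0) * (x3 - x0) * (x3 - x2)) - g x0 * ((x2 - x1) * (x3 - x1) * (x3 - x2))) := by
  have e01 : x1 - x0 ≠ 0 := (sub_pos.2 h01).ne'
  have e12 : x2 - x1 ≠ 0 := (sub_pos.2 h12).ne'
  have e23 : x3 - x2 ≠ 0 := (sub_pos.2 h23).ne'
  have e02 : x2 - x0 ≠ 0 := (sub_pos.2 (h01.trans h12)).ne'
  have e13 : x3 - x1 ≠ 0 := (sub_pos.2 (h12.trans h23)).ne'
  have e03 : x3 - x0 ≠ 0 := (sub_pos.2 ((h01.trans h12).trans h23)).ne'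
  obtain ⟨c1, hc1⟩ : ∃ c1, c1 = (g x1 - g x0) / (x1 - x0) := ⟨_, rfl⟩
  obtain ⟨c2, hc2⟩ : ∃ c2, c2 = ((g x2 - g x0) / (x2 - x0) - c1) / (x2 - x1) := ⟨_, rfl⟩
  obtain ⟨c3, hc3⟩ : ∃ c3, c3 = (((g x3 - g x0) / (x3 - x0) - c1) / (x3 - x1) - c2) / (x3 - x2) :=
    ⟨_, rfl⟩
  set φ : ℝ → ℝ := fun x => g x - (g x0 + c1 * (x - x0) + c2 * ((x - x0) * (x - x1)) +
    c3 * ((x - x0) * (x - x1) * (x - x2))) with hφ
  set φ1 : ℝ → ℝ := fun x => g1 x - (c1 + c2 * ((x - x0) + (x - x1)) +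
    c3 * ((x - x1) * (x - x2) + (x - x0) * (x - x2) + (x - x0) * (x - x1))) with hφ1
  set φ2 : ℝ → ℝ := fun x => g2 x - (2 * c2 + 2 * c3 * ((x - x0) + (x - x1) + (x - x2))) with hφ2
  have hd : ∀ x ∈ Icc x0 x3, HasDerivAt φ (φ1 x) x := by
    intro x hx
    have h1 : HasDerivAt (fun y : ℝ => y - x0) 1 x := (hasDerivAt_id x).sub_const x0
    have h2 : HasDerivAt (fun y : ℝ => y - x1) 1 x := (hasDerivAt_id x).sub_const x1
    have h3 : HasDerivAt (fun y : ℝ => y - x2) 1 x := (hasDerivAt_id x).sub_const x2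
    have := (hg x hx).sub ((((h1.const_mul c1).const_add (g x0)).add ((h1.mul h2).const_mul c2)).add
      (((h1.mul h2).mul h3).const_mul c3))
    refine this.congr_deriv ?_
    simp only [hφ1, Pi.mul_apply]
    ring
  have hd1 : ∀ x ∈ Icc x0 x3, HasDerivAt φ1 (φ2 x) x := by
    intro x hx
    have h1 : HasDerivAt (fun y : ℝ => y - x0) 1 x := (hasDerivAt_id x).sub_const x0
    have h2 : HasDerivAt (fun y : ℝ => y - x1) 1 x := (hasDerivAt_id x).sub_const x1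
    have h3 : HasDerivAt (fun y : ℝ => y - x2) 1 x := (hasDerivAt_id x).sub_const x2
    have := (hg1 x hx).sub ((((h1.add h2).const_mul c2).const_add c1).add
      ((((h2.mul h3).add (h1.mul h3)).add (h1.mul h2)).const_mul c3))
    refine this.congr_deriv ?_
    simp only [hφ2]
    ring
  have hd2 : ∀ x ∈ Icc x0 x3, HasDerivAt φ2 (g3 x - 6 * c3) x := by
    intro x hx
    have h1 : HasDerivAt (fun y : ℝ => y - x0) 1 x := (hasDerivAt_id x).sub_const x0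
    have h2 : HasDerivAt (fun y : ℝ => y - x1) 1 x := (hasDerivAt_id x).sub_const x1
    have h3 : HasDerivAt (fun y : ℝ => y - x2) 1 x := (hasDerivAt_id x).sub_const x2
    have := (hg2 x hx).sub ((((h1.add h2).add h3).const_mul (2 * c3)).const_add (2 * c2))
    refine this.congr_deriv ?_
    ring
  have z0 : φ x0 = 0 := by simp [hφ]
  have z1 : φ x1 = 0 := by
    simp only [hφ, hc1]
    field_simp
    ring
  have z2 : φ x2 = 0 := by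
    simp only [hφ, hc2]
    field_simp
    ring
  have z3 : φ x3 = 0 := by
    simp only [hφ, hc3]
    field_simp
    ring
  obtain ⟨ξ1, ⟨a1, a2⟩, hξ1⟩ := exists_hasDerivAt_eq_zero (f := φ) (f' := φ1) h01
    (fun x hx => (hd x ⟨hx.1, hx.2.trans (h12.trans h23).le⟩).continuousAt.continuousWithinAt)
    (z0.trans z1.symm)
    (fun x hx => hd x ⟨hx.1.le, hx.2.le.trans (h12.trans h23).le⟩)
  obtain ⟨ξ2, ⟨b1, b2⟩, hξ2⟩ := exists_hasDerivAt_eq_zero (f := φ) (f' := φ1) h12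
    (fun x hx => (hd x ⟨h01.le.trans hx.1, hx.2.trans h23.le⟩).continuousAt.continuousWithinAt)
    (z1.trans z2.symm)
    (fun x hx => hd x ⟨h01.le.trans hx.1.le, hx.2.le.trans h23.le⟩)
  obtain ⟨ξ3, ⟨c1', c2'⟩, hξ3⟩ := exists_hasDerivAt_eq_zero (f := φ) (f' := φ1) h23
    (fun x hx => (hd x ⟨(h01.trans h12).le.trans hx.1, hx.2⟩).continuousAt.continuousWithinAt)
    (z2.trans z3.symm)
    (fun x hx => hd x ⟨(h01.trans h12).le.trans hx.1.le, hx.2.le⟩)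
  obtain ⟨η1, ⟨d1, d2⟩, hη1⟩ := exists_hasDerivAt_eq_zero (f := φ1) (f' := φ2)
    (a2.trans b1)
    (fun x hx => (hd1 x ⟨a1.le.trans hx.1, hx.2.trans (b2.trans h23).le⟩).continuousAt.continuousWithinAt)
    (hξ1.trans hξ2.symm) (fun x hx => hd1 x ⟨a1.le.trans hx.1.le, hx.2.le.trans (b2.trans h23).le⟩)
  obtain ⟨η2, ⟨f1, f2⟩, hη2⟩ := exists_hasDerivAt_eq_zero (f := φ1) (f' := φ2)
    (b2.trans c1')
    (fun x hx => (hd1 x ⟨(h01.trans b1).le.trans hx.1, hx.2.trans c2'.le⟩).continuousAt.continuousWithinAt)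
    (hξ2.trans hξ3.symm) (fun x hx => hd1 x ⟨(h01.trans b1).le.trans hx.1.le, hx.2.le.trans c2'.le⟩)
  obtain ⟨ζ, ⟨k1, k2⟩, hζ⟩ := exists_hasDerivAt_eq_zero (f := φ2) (f' := fun x => g3 x - 6 * c3)
    (d2.trans f1)
    (fun x hx => (hd2 x ⟨(a1.trans d1).le.trans hx.1, hx.2.trans (f2.trans c2').le⟩).continuousAt.continuousWithinAt)
    (hη1.trans hη2.symm) (fun x hx => hd2 x ⟨(a1.trans d1).le.trans hx.1.le, hx.2.le.trans (f2.trans c2').le⟩)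
  refine ⟨ζ, ⟨(a1.trans d1).trans k1, k2.trans (f2.trans c2')⟩, ?_⟩
  have h2 : g3 ζ = 6 * c3 := by
    have h3 : g3 ζ - 6 * c3 = 0 := hζ
    linarith
  rw [h2, hc3, hc2, hc1]
  field_simp
  ring

end Pool.PV57
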