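import Pool.Agent.PV57.Bezout

/-!
# The count of powerful values for a polynomial with a simple root of degree at most four
-/

namespace Pool.PV57

open Polynomial Finset

theorem powAway_neg {f : ℤ[X]} {Δ : ℕ} {n : ℤ} : PowAway (-f) Δ n ↔ PowAway f Δ n := by
  unfold PowAway
  simp only [eval_neg, dvd_neg]

theorem powAway_comp {f : ℤ[X]} {Δ : ℕ} {n : ℤ} :
    PowAway (f.comp (-X)) Δ n ↔ PowAway f Δ (-n) := by
  unfold PowAway
  simp only [eval_comp, eval_neg, eval_X]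

theorem sep_neg {f : ℤ[X]} {Δ : ℕ} (h : Sep f Δ) : Sep (-f) Δ := by
  refine ⟨h.pos, ?_, ?_⟩
  · intro p hp hd
    rw [leadingCoeff_neg, dvd_neg] at hd
    exact h.lead p hp hd
  · intro p hp n h1 h2
    rw [eval_neg, dvd_neg] at h1
    rw [derivative_neg, eval_neg, dvd_neg] at h2
    exact h.disc p hp n h1 h2

theorem sep_comp {f : ℤ[X]} {Δ : ℕ} (h : Sep f Δ) : Sep (f.comp (-X)) Δ := by
  refine ⟨h.pos, ?_, ?_⟩
  · intro p hp hd
    rw [leadingCoeff_comp (by rw [natDegree_neg, natDegree_X]; norm_num), leadingCoeff_neg,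
      leadingCoeff_X] at hd
    apply h.lead p hp
    have h2 : f.leadingCoeff = (f.leadingCoeff * (-1) ^ f.natDegree) * (-1) ^ f.natDegree := by
      rw [mul_assoc, ← mul_pow]
      norm_num
    rw [h2]
    exact hd.mul_right _
  · intro p hp n h1 h2
    rw [eval_comp, eval_neg, eval_X] at h1
    rw [derivative_comp, derivative_neg, derivative_X, neg_one_mul, eval_neg, dvd_neg, eval_comp,
      eval_neg, eval_X] at h2
    exact h.disc p hp (-n) h1 h2

theorem all_case {f : ℤ[X]} {Δ : ℕ} (hf : Sep f Δ) (hD : 1 ≤ f.natDegree) (hD4 : f.natDegree ≤ 4)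
    (hcop : IsCoprime (f.map (Int.castRingHom ℝ)) (f.map (Int.castRingHom ℝ)).derivative) :
    ∃ C : ℝ, 0 < C ∧ ∀ N : ℕ, 1 ≤ N → ((cnt f Δ N).card : ℝ) ≤ C * (N : ℝ) ^ (23 / 24 : ℝ) := by
  have hf0 : f ≠ 0 := by
    rintro rfl
    simp at hD
  rcases lt_or_gt_of_ne (leadingCoeff_ne_zero.2 hf0) with h | h
  · obtain ⟨C, hC, hb⟩ := pos_case (sep_neg hf) (by rwa [natDegree_neg]) (by rwa [natDegree_neg])
      (by
        rw [Polynomial.map_neg, derivative_neg]
        exact hcop.neg_neg) (by rw [leadingCoeff_neg]; omega)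
    refine ⟨C, hC, fun N hN => ?_⟩
    have : cnt (-f) Δ N = cnt f Δ N := by
      ext n
      rw [mem_cnt, mem_cnt, powAway_neg]
    rw [← this]
    exact hb N hN
  · exact pos_case hf hD hD4 hcop h

theorem coprime_comp {F : ℝ[X]} (h : IsCoprime F F.derivative) :
    IsCoprime (F.comp (-X)) (F.comp (-X)).derivative := by
  rw [derivative_comp, derivative_neg, derivative_X, neg_one_mul]
  have := h.map (compRingHom (-X : ℝ[X]))
  exact this.neg_right

/-- The count over all integers. -/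
theorem int_count {f : ℤ[X]} {Δ : ℕ} (hf : Sep f Δ) (hD : 1 ≤ f.natDegree) (hD4 : f.natDegree ≤ 4)
    (hcop : IsCoprime (f.map (Int.castRingHom ℝ)) (f.map (Int.castRingHom ℝ)).derivative) :
    ∃ C : ℝ, 0 < C ∧ ∀ N : ℕ, 1 ≤ N →
      (({n : ℤ | |n| ≤ N ∧ PowAway f Δ n}).ncard : ℝ) ≤ C * (N : ℝ) ^ (23 / 24 : ℝ) := by
  classical
  obtain ⟨C1, hC1, h1⟩ := all_case hf hD hD4 hcop
  have hmap : (f.comp (-X)).map (Int.castRingHom ℝ) = (f.map (Int.castRingHom ℝ)).comp (-X) := by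
    rw [map_comp, Polynomial.map_neg, map_X]
  have hnd : (f.comp (-X)).natDegree = f.natDegree := by
    rw [natDegree_comp, natDegree_neg, natDegree_X, mul_one]
  obtain ⟨C2, hC2, h2⟩ := all_case (sep_comp hf) (by rwa [hnd]) (by rwa [hnd])
    (by rw [hmap]; exact coprime_comp hcop)
  refine ⟨C1 + C2, by positivity, fun N hN => ?_⟩
  have hsub : {n : ℤ | |n| ≤ N ∧ PowAway f Δ n} ⊆
      (((cnt f Δ N).image fun n : ℕ => (n : ℤ)) ∪
        ((cnt (f.comp (-X)) Δ N).image fun n : ℕ => -(n : ℤ)) : Finset ℤ) := by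
    rintro n ⟨hn1, hn2⟩
    rw [mem_coe, mem_union, mem_image, mem_image]
    rcases le_total 0 n with h | h
    · left
      refine ⟨n.toNat, ?_, Int.toNat_of_nonneg h⟩
      rw [mem_cnt, Int.toNat_of_nonneg h]
      refine ⟨?_, hn2⟩
      rw [abs_of_nonneg h] at hn1
      omega
    · right
      have h' : 0 ≤ -n := by omega
      refine ⟨(-n).toNat, ?_, by rw [Int.toNat_of_nonneg h', neg_neg]⟩
      rw [mem_cnt, powAway_comp, Int.toNat_of_nonneg h', neg_neg]
      refine ⟨?_, hn2⟩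
      rw [abs_of_nonpos h] at hn1
      omega
  have h3 := Set.ncard_le_ncard hsub (Finset.finite_toSet _)
  rw [Set.ncard_coe_finset] at h3
  have h4 := card_union_le ((cnt f Δ N).image fun n : ℕ => (n : ℤ))
    ((cnt (f.comp (-X)) Δ N).image fun n : ℕ => -(n : ℤ))
  have h5 : ((cnt f Δ N).image fun n : ℕ => (n : ℤ)).card ≤ (cnt f Δ N).card := card_image_le
  have h6 : ((cnt (f.comp (-X)) Δ N).image fun n : ℕ => -(n : ℤ)).card ≤
    (cnt (f.comp (-X)) Δ N).card := card_image_le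
  have h7 : (({n : ℤ | |n| ≤ N ∧ PowAway f Δ n}).ncard : ℝ) ≤
      (cnt f Δ N).card + (cnt (f.comp (-X)) Δ N).card := by
    exact_mod_cast h3.trans (h4.trans (add_le_add h5 h6))
  calc _ ≤ _ := h7
    _ ≤ C1 * (N : ℝ) ^ (23 / 24 : ℝ) + C2 * (N : ℝ) ^ (23 / 24 : ℝ) := add_le_add (h1 N hN) (h2 N hN)
    _ = _ := by ring

end Pool.PV57
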