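import Pool.Agent.PV57.Pos

/-!
# The count for all separable polynomials of degree at most four
-/

namespace Pool.PV57

open Polynomial Finset Filter

open Classical in
/-- The natural numbers `n ≤ N` with `PowAway f Δ n`. -/
noncomputable def cnt (f : ℤ[X]) (Δ N : ℕ) : Finset ℕ :=
  (range (N + 1)).filter fun n : ℕ => PowAway f Δ (n : ℤ)

theorem mem_cnt {f : ℤ[X]} {Δ N n : ℕ} : n ∈ cnt f Δ N ↔ n ≤ N ∧ PowAway f Δ (n : ℤ) := by
  simp only [cnt, mem_filter, mem_range, Nat.lt_succ_iff]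

theorem pos_case {f : ℤ[X]} {Δ : ℕ} (hf : Sep f Δ) (hD : 1 ≤ f.natDegree) (hD4 : f.natDegree ≤ 4)
    (hcop : IsCoprime (f.map (Int.castRingHom ℝ)) (f.map (Int.castRingHom ℝ)).derivative)
    (hlead : 0 < f.leadingCoeff) :
    ∃ C : ℝ, 0 < C ∧ ∀ N : ℕ, 1 ≤ N → ((cnt f Δ N).card : ℝ) ≤ C * (N : ℝ) ^ (23 / 24 : ℝ) := by
  set F : ℝ[X] := f.map (Int.castRingHom ℝ) with hF
  have hFf : ∀ n : ℕ, F.eval (n : ℝ) = ((f.eval (n : ℤ) : ℤ) : ℝ) := by
    intro n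
    rw [hF, show (n : ℝ) = (Int.castRingHom ℝ) (n : ℤ) by simp, eval_map_apply]
    simp
  have hinj : Function.Injective (Int.castRingHom ℝ) := by
    simpa using Int.cast_injective (α := ℝ)
  have hnd : F.natDegree = f.natDegree := natDegree_map_eq_of_injective hinj f
  have hlc : 0 < F.leadingCoeff := by
    rw [hF, leadingCoeff_map_of_injective hinj]
    simpa using hlead
  obtain ⟨X0, K, hX0, hK, hall⟩ := exists_const (hnd ▸ hD) (hnd ▸ hD4) hcop hlc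
  have hX4 : (X ^ 4 : ℝ[X]) ≠ 0 := by simp
  obtain ⟨K', hK', hb⟩ := eventually_bound (P := F) (F := X ^ 4) (by
    rw [natDegree_X_pow, hnd]; exact hD4) hX4 (by
    filter_upwards [eventually_gt_atTop 0] with x hx
    simp only [eval_pow, eval_X]
    positivity)
  obtain ⟨X1, hX1⟩ := eventually_atTop.1 hb
  obtain ⟨c, hc⟩ := exists_nat_ge K'
  have hc0 : 0 < c := by
    have : (0 : ℝ) < c := hK'.trans_le hc
    exact_mod_cast this
  set X2 : ℝ := max X0 X1 with hX2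
  have hG : Good F X2 K := ⟨hX0.trans (le_max_left _ _), hK,
    fun x hx => hall x ((le_max_left _ _).trans hx)⟩
  obtain ⟨C1, hC1, h1⟩ := sqSet_le hG
  obtain ⟨C2, hC2, h2⟩ := cbSet_le hG
  obtain ⟨C3, hC3, h3⟩ := mid_count hf hD
  obtain ⟨D1, hD1, g1⟩ := union_le hf.pos hc0 C1 hC1
  obtain ⟨D2, hD2, g2⟩ := union_le hf.pos hc0 C2 hC2
  have hev : ∀ᶠ N : ℕ in atTop, X2 ≤ (N : ℝ) ^ (23 / 24 : ℝ) ∧ (c : ℝ) ≤ (N : ℝ) ^ (1 / 2 : ℝ) := by
    refine Filter.Eventually.and ?_ ?_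
    · exact ((tendsto_rpow_atTop (by norm_num)).comp tendsto_natCast_atTop_atTop).eventually_ge_atTop X2
    · exact ((tendsto_rpow_atTop (by norm_num)).comp tendsto_natCast_atTop_atTop).eventually_ge_atTop _
  obtain ⟨N1, hN1⟩ := eventually_atTop.1 hev
  refine ⟨2 + D1 + D2 + C3 + (N1 + 1), by positivity, ?_⟩
  intro N hN
  have hN1' : (1 : ℝ) ≤ N := by exact_mod_cast hN
  have hN0 : (0 : ℝ) < N := by linarith
  have hpow1 : (1 : ℝ) ≤ (N : ℝ) ^ (23 / 24 : ℝ) := Real.one_le_rpow hN1' (by norm_num)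
  by_cases hlt : N < N1
  · have h4 : ((cnt f Δ N).card : ℝ) ≤ N1 + 1 := by
      have : (cnt f Δ N).card ≤ N + 1 := by
        calc (cnt f Δ N).card ≤ (range (N + 1)).card := by
              apply card_le_card
              intro n hn
              rw [mem_range, Nat.lt_succ_iff]
              exact (mem_cnt.1 hn).1
          _ = N + 1 := card_range _
      have h5 : (cnt f Δ N).card ≤ N1 + 1 := by omega
      exact_mod_cast h5
    calc ((cnt f Δ N).card : ℝ) ≤ (N1 + 1) * 1 := by linarith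
      _ ≤ (2 + D1 + D2 + C3 + (N1 + 1)) * (N : ℝ) ^ (23 / 24 : ℝ) :=
          mul_le_mul (by linarith) hpow1 (by norm_num) (by positivity)
  push Not at hlt
  obtain ⟨hM, hcN⟩ := hN1 N hlt
  set A := ((Δ ^ (Nat.log 2 (c * N ^ 4) + 1)).divisors ×ˢ
        Icc 1 ⌊(N : ℝ) ^ (1 / 12 : ℝ)⌋₊).biUnion fun p => sqSet F N (p.1 * p.2) with hA
  set B := ((Δ ^ (Nat.log 2 (c * N ^ 4) + 1)).divisors ×ˢ
        Icc 1 ⌊(N : ℝ) ^ (1 / 12 : ℝ)⌋₊).biUnion fun p => cbSet F N (p.1 * p.2 ^ 2) with hB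
  have hsub : cnt f Δ N ⊆ range ⌈(N : ℝ) ^ (23 / 24 : ℝ)⌉₊ ∪ (A ∪ (B ∪ midSet f Δ N)) := by
    intro n hn
    obtain ⟨hnN, hcond⟩ := mem_cnt.1 hn
    rw [mem_union]
    by_cases hnM : (n : ℝ) < (N : ℝ) ^ (23 / 24 : ℝ)
    · left
      rw [mem_range]
      exact Nat.lt_ceil.2 hnM
    · right
      push Not at hnM
      have hnX : X2 ≤ (n : ℝ) := hM.trans hnM
      have hn0 : (0 : ℝ) ≤ n := by positivity
      have hpos := (hG.2.2 n hnX).1
      refine cover hFf hf.pos hN hnN hnM hpos ?_ hcN hcond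
      have := hX1 n ((le_max_right _ _).trans hnX)
      rw [abs_of_pos hpos] at this
      simp only [eval_pow, eval_X] at this
      have hnN' : (n : ℝ) ≤ N := by exact_mod_cast hnN
      calc F.eval (n : ℝ) ≤ K' * (n : ℝ) ^ 4 := this
        _ ≤ c * (N : ℝ) ^ 4 := by gcongr
  have hA' : (A.card : ℝ) ≤ D1 * (N : ℝ) ^ (23 / 24 : ℝ) :=
    g1 N hN _ (fun p hp1 hp2 => h1 N _ hN (by positivity) hM)
  have hB' : (B.card : ℝ) ≤ D2 * (N : ℝ) ^ (23 / 24 : ℝ) :=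
    g2 N hN _ (fun p hp1 hp2 => h2 N _ hN (by positivity) hM)
  have hmid := h3 N hN
  have hceil : ((range ⌈(N : ℝ) ^ (23 / 24 : ℝ)⌉₊).card : ℝ) ≤ 2 * (N : ℝ) ^ (23 / 24 : ℝ) := by
    rw [card_range]
    have := Nat.ceil_lt_add_one (show 0 ≤ (N : ℝ) ^ (23 / 24 : ℝ) by positivity)
    linarith
  have hcard : ((cnt f Δ N).card : ℝ) ≤ (range ⌈(N : ℝ) ^ (23 / 24 : ℝ)⌉₊).card +
      (A.card + (B.card + (midSet f Δ N).card)) := by
    have h5 := card_le_card hsub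
    have h6 := card_union_le (range ⌈(N : ℝ) ^ (23 / 24 : ℝ)⌉₊) (A ∪ (B ∪ midSet f Δ N))
    have h7 := card_union_le A (B ∪ midSet f Δ N)
    have h8 := card_union_le B (midSet f Δ N)
    have h9 : (cnt f Δ N).card ≤ (range ⌈(N : ℝ) ^ (23 / 24 : ℝ)⌉₊).card +
      (A.card + (B.card + (midSet f Δ N).card)) := by omega
    exact_mod_cast h9
  have hfin : (2 + D1 + D2 + C3) * (N : ℝ) ^ (23 / 24 : ℝ) ≤
      (2 + D1 + D2 + C3 + (N1 + 1)) * (N : ℝ) ^ (23 / 24 : ℝ) := by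
    have h10 : (0 : ℝ) ≤ N1 + 1 := by positivity
    exact mul_le_mul_of_nonneg_right (by linarith) (by positivity)
  linarith

end Pool.PV57
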