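import Pool.Agent.PV57.Count

/-!
# The middle range
-/

namespace Pool.PV57

open Polynomial Finset

/-- The `n ≤ N` with `a ^ 2 ∣ f(n)` for some `a` coprime to `Δ` with `N^{1/12} < a ≤ N^{9/10}`. -/
noncomputable def midSet (f : ℤ[X]) (Δ N : ℕ) : Finset ℕ :=
  ((Ioc ⌊(N : ℝ) ^ (1 / 12 : ℝ)⌋₊ ⌊(N : ℝ) ^ (9 / 10 : ℝ)⌋₊).filter fun a => Nat.Coprime a Δ).biUnion
    fun a => (range (N + 1)).filter fun n : ℕ => ((a ^ 2 : ℕ) : ℤ) ∣ f.eval (n : ℤ)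

theorem mid_count {f : ℤ[X]} {Δ : ℕ} (hf : Sep f Δ) (hD : 1 ≤ f.natDegree) :
    ∃ C : ℝ, 0 < C ∧ ∀ N : ℕ, 1 ≤ N → ((midSet f Δ N).card : ℝ) ≤ C * (N : ℝ) ^ (23 / 24 : ℝ) := by
  obtain ⟨C5, hC5, h5⟩ := pow_omega_le f.natDegree hD (1 / 24) (by norm_num)
  refine ⟨C5 * 3, by positivity, ?_⟩
  intro N hN
  have hN1 : (1 : ℝ) ≤ N := by exact_mod_cast hN
  have hN0 : (0 : ℝ) < N := by linarith
  set k : ℕ := ⌊(N : ℝ) ^ (1 / 12 : ℝ)⌋₊ with hk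
  set m : ℕ := ⌊(N : ℝ) ^ (9 / 10 : ℝ)⌋₊ with hm
  have hmle : (m : ℝ) ≤ (N : ℝ) ^ (9 / 10 : ℝ) := Nat.floor_le (by positivity)
  have hklt : (N : ℝ) ^ (1 / 12 : ℝ) < k + 1 := Nat.lt_floor_add_one _
  have h1 : ∀ a ∈ (Ioc k m).filter (fun a => Nat.Coprime a Δ),
      ((((range (N + 1)).filter fun n : ℕ => ((a ^ 2 : ℕ) : ℤ) ∣ f.eval (n : ℤ)).card : ℕ) : ℝ) ≤
        (C5 * (N : ℝ) ^ (1 / 24 : ℝ)) * (N * ((a : ℝ) ^ 2)⁻¹ + 1) := by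
    intro a ha
    obtain ⟨ha1, ha2⟩ := mem_filter.1 ha
    obtain ⟨ha3, ha4⟩ := mem_Ioc.1 ha1
    have ha0 : 0 < a := by omega
    have hcard := card_dvd_le hf (m := a ^ 2) (by positivity) (ha2.pow_left 2) N
    rw [Nat.primeFactors_pow a (by norm_num)] at hcard
    have haN : (a : ℝ) ≤ N := by
      calc (a : ℝ) ≤ m := by exact_mod_cast ha4
        _ ≤ (N : ℝ) ^ (9 / 10 : ℝ) := hmle
        _ ≤ (N : ℝ) ^ (1 : ℝ) := Real.rpow_le_rpow_of_exponent_le hN1 (by norm_num)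
        _ = N := Real.rpow_one _
    have h2 : (f.natDegree : ℝ) ^ a.primeFactors.card ≤ C5 * (N : ℝ) ^ (1 / 24 : ℝ) := by
      refine (h5 a ha0).trans ?_
      gcongr
    have h3 : ((N / a ^ 2 : ℕ) : ℝ) ≤ N * ((a : ℝ) ^ 2)⁻¹ := by
      rw [← div_eq_mul_inv]
      have := @Nat.cast_div_le ℝ _ _ _ N (a ^ 2)
      push_cast at this
      exact this
    calc ((((range (N + 1)).filter fun n : ℕ => ((a ^ 2 : ℕ) : ℤ) ∣ f.eval (n : ℤ)).card : ℕ) : ℝ)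
        ≤ (((N / a ^ 2 + 1) * f.natDegree ^ a.primeFactors.card : ℕ) : ℝ) := by
          exact_mod_cast hcard
      _ = (((N / a ^ 2 : ℕ) : ℝ) + 1) * (f.natDegree : ℝ) ^ a.primeFactors.card := by
          push_cast
          ring
      _ ≤ (N * ((a : ℝ) ^ 2)⁻¹ + 1) * (C5 * (N : ℝ) ^ (1 / 24 : ℝ)) := by gcongr
      _ = _ := by ring
  have h6 : ((midSet f Δ N).card : ℝ) ≤ ∑ a ∈ (Ioc k m).filter (fun a => Nat.Coprime a Δ),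
      ((((range (N + 1)).filter fun n : ℕ => ((a ^ 2 : ℕ) : ℤ) ∣ f.eval (n : ℤ)).card : ℕ) : ℝ) := by
    exact_mod_cast card_biUnion_le
  have h7 : ∑ a ∈ (Ioc k m).filter (fun a => Nat.Coprime a Δ),
      (C5 * (N : ℝ) ^ (1 / 24 : ℝ)) * (N * ((a : ℝ) ^ 2)⁻¹ + 1) ≤
      ∑ a ∈ Ioc k m, (C5 * (N : ℝ) ^ (1 / 24 : ℝ)) * (N * ((a : ℝ) ^ 2)⁻¹ + 1) := by
    apply sum_le_sum_of_subset_of_nonneg (filter_subset _ _)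
    intro a _ _
    positivity
  have h8 : ∑ a ∈ Ioc k m, ((a : ℝ) ^ 2)⁻¹ ≤ 2 / (k + 1) := by
    have := sum_Ioo_inv_sq_le (α := ℝ) k (m + 1)
    have he : Ioo k (m + 1) = Ioc k m := by
      ext x
      simp only [mem_Ioo, mem_Ioc]
      omega
    rw [he] at this
    exact this
  have h9 : ∑ a ∈ Ioc k m, (C5 * (N : ℝ) ^ (1 / 24 : ℝ)) * (N * ((a : ℝ) ^ 2)⁻¹ + 1) ≤
      (C5 * (N : ℝ) ^ (1 / 24 : ℝ)) * (N * (2 / (k + 1)) + m) := by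
    rw [← mul_sum, sum_add_distrib, ← mul_sum, sum_const, nsmul_eq_mul, mul_one, Nat.card_Ioc]
    gcongr
    exact_mod_cast Nat.sub_le m k
  have h10 : N * (2 / ((k : ℝ) + 1)) ≤ 2 * (N : ℝ) ^ (11 / 12 : ℝ) := by
    have h11 : 2 / ((k : ℝ) + 1) ≤ 2 / (N : ℝ) ^ (1 / 12 : ℝ) := by
      gcongr
    have h12 : (N : ℝ) = (N : ℝ) ^ (11 / 12 : ℝ) * (N : ℝ) ^ (1 / 12 : ℝ) := by
      rw [← Real.rpow_add hN0]
      norm_num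
    calc N * (2 / ((k : ℝ) + 1)) ≤ N * (2 / (N : ℝ) ^ (1 / 12 : ℝ)) := by gcongr
      _ = ((N : ℝ) ^ (11 / 12 : ℝ) * (N : ℝ) ^ (1 / 12 : ℝ)) * (2 / (N : ℝ) ^ (1 / 12 : ℝ)) := by
          rw [← h12]
      _ = 2 * (N : ℝ) ^ (11 / 12 : ℝ) := by
          have : (N : ℝ) ^ (1 / 12 : ℝ) ≠ 0 := by positivity
          field_simp
  have h13 : (m : ℝ) ≤ (N : ℝ) ^ (11 / 12 : ℝ) :=
    hmle.trans (Real.rpow_le_rpow_of_exponent_le hN1 (by norm_num))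
  calc ((midSet f Δ N).card : ℝ) ≤ _ := h6
    _ ≤ _ := sum_le_sum h1
    _ ≤ _ := h7
    _ ≤ _ := h9
    _ ≤ (C5 * (N : ℝ) ^ (1 / 24 : ℝ)) * (2 * (N : ℝ) ^ (11 / 12 : ℝ) + (N : ℝ) ^ (11 / 12 : ℝ)) := by
        gcongr
    _ = C5 * 3 * ((N : ℝ) ^ (1 / 24 : ℝ) * (N : ℝ) ^ (11 / 12 : ℝ)) := by ring
    _ = C5 * 3 * (N : ℝ) ^ (23 / 24 : ℝ) := by
        rw [← Real.rpow_add hN0]
        norm_num

end Pool.PV57
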