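import Pool.Agent.PV57.Spread

/-!
# Integral points on `l y ^ 2 = f(x)` and `l y ^ 3 = f(x)` are spread
-/

namespace Pool.PV57

open Polynomial Set

/-- The constants of `exists_const` hold for `F` from `X0` on with constant `K`. -/
def Good (F : ℝ[X]) (X0 K : ℝ) : Prop :=
  1 ≤ X0 ∧ 0 < K ∧ ∀ x, X0 ≤ x → 0 < F.eval x ∧ (Q3 F).eval x ≠ 0 ∧
    (Q2 F).eval x ≠ 0 ∧ |(Q3 F).eval x| * (F.eval x) ^ (-5 / 2 : ℝ) ≤ K / x ∧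
    |(Q2 F).eval x| * (F.eval x) ^ (-5 / 3 : ℝ) ≤ K * x ^ (-2 / 3 : ℝ)

theorem prod6 {a b c d e f G : ℝ} (ha : 0 ≤ a) (hb : 0 ≤ b) (hc : 0 ≤ c) (hd : 0 ≤ d) (he : 0 ≤ e)
    (hf : 0 ≤ f) (ha' : a ≤ G) (hb' : b ≤ G) (hc' : c ≤ G) (hd' : d ≤ G) (he' : e ≤ G)
    (hf' : f ≤ G) : a * b * c * d * e * f ≤ G ^ 6 := by
  have hG : 0 ≤ G := ha.trans ha'
  calc a * b * c * d * e * f ≤ G * G * G * G * G * G := by gcongr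
    _ = G ^ 6 := by ring

theorem prod3 {a b c G : ℝ} (ha : 0 ≤ a) (hb : 0 ≤ b) (hc : 0 ≤ c) (ha' : a ≤ G) (hb' : b ≤ G)
    (hc' : c ≤ G) : a * b * c ≤ G ^ 3 := by
  have hG : 0 ≤ G := ha.trans ha'
  calc a * b * c ≤ G * G * G := by gcongr
    _ = G ^ 3 := by ring

theorem sq_gap {F : ℝ[X]} {X0 K : ℝ} (hG : Good F X0 K) {l : ℕ} (hl : 0 < l) {n : Fin 4 → ℕ}
    (hn : StrictMono n) (h0 : X0 ≤ n 0) {y : Fin 4 → ℕ}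
    (hy : ∀ i, F.eval (n i : ℝ) = l * (y i : ℝ) ^ 2) :
    (n 0 : ℝ) ≤ K * ((n 3 : ℝ) - n 0) ^ 6 := by
  obtain ⟨hX0, hK, hall⟩ := hG
  have h01 : (n 0 : ℝ) < n 1 := by exact_mod_cast hn (show (0 : Fin 4) < 1 by decide)
  have h12 : (n 1 : ℝ) < n 2 := by exact_mod_cast hn (show (1 : Fin 4) < 2 by decide)
  have h23 : (n 2 : ℝ) < n 3 := by exact_mod_cast hn (show (2 : Fin 4) < 3 by decide)
  have hpos : ∀ x ∈ Icc (n 0 : ℝ) (n 3), 0 < F.eval x := fun x hx => (hall x (h0.trans hx.1)).1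
  obtain ⟨ξ, hξ, hr⟩ := rolle3 h01 h12 h23 (fun x hx => (sqrt_chain (hpos x hx)).1)
    (fun x hx => (sqrt_chain (hpos x hx)).2.1) (fun x hx => (sqrt_chain (hpos x hx)).2.2)
  have hn0 : (0 : ℝ) < n 0 := by linarith
  have hξ0 : 0 < ξ := hn0.trans hξ.1
  obtain ⟨c1, c2, c3, c4, -⟩ := hall ξ (h0.trans hξ.1.le)
  have hg : ∀ i, (F.eval (n i : ℝ)) ^ (1 / 2 : ℝ) = Real.sqrt l * y i := by
    intro i
    rw [hy i, ← Real.sqrt_eq_rpow, Real.sqrt_mul (by positivity), Real.sqrt_sq (by positivity)]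
  rw [hg 0, hg 1, hg 2, hg 3] at hr
  obtain ⟨V, hV⟩ : ∃ V : ℝ, V = ((n 1 : ℝ) - n 0) * (n 2 - n 0) * (n 3 - n 0) * (n 2 - n 1) *
    (n 3 - n 1) * (n 3 - n 2) := ⟨_, rfl⟩
  rw [← hV] at hr
  set E : ℤ := (y 3 : ℤ) * (((n 1 : ℤ) - n 0) * (n 2 - n 0) * (n 2 - n 1)) -
    y 2 * (((n 1 : ℤ) - n 0) * (n 3 - n 0) * (n 3 - n 1)) +
    y 1 * (((n 2 : ℤ) - n 0) * (n 3 - n 0) * (n 3 - n 2)) -
    y 0 * (((n 2 : ℤ) - n 1) * (n 3 - n 1) * (n 3 - n 2)) with hE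
  have hr' : (Q3 F).eval ξ * (F.eval ξ) ^ (-5 / 2 : ℝ) * (1 / 8) * V = 6 * (Real.sqrt l * (E : ℝ)) := by
    rw [hr, hE]
    push_cast
    ring
  have p01 : 0 < (n 1 : ℝ) - n 0 := by linarith
  have p12 : 0 < (n 2 : ℝ) - n 1 := by linarith
  have p23 : 0 < (n 3 : ℝ) - n 2 := by linarith
  have p02 : 0 < (n 2 : ℝ) - n 0 := by linarith
  have p13 : 0 < (n 3 : ℝ) - n 1 := by linarith
  have p03 : 0 < (n 3 : ℝ) - n 0 := by linarith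
  have hVpos : 0 < V := by rw [hV]; positivity
  have hFpos : 0 < (F.eval ξ) ^ (-5 / 2 : ℝ) := Real.rpow_pos_of_pos c1 _
  have hl1 : (1 : ℝ) ≤ Real.sqrt l := by
    rw [Real.one_le_sqrt]
    exact_mod_cast hl
  have hE0 : E ≠ 0 := by
    intro h0
    rw [h0] at hr'
    have : (Q3 F).eval ξ * (F.eval ξ) ^ (-5 / 2 : ℝ) * (1 / 8) * V ≠ 0 := by
      refine mul_ne_zero (mul_ne_zero (mul_ne_zero c2 hFpos.ne') (by norm_num)) hVpos.ne'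
    apply this
    rw [hr']
    simp
  have hE1 : (1 : ℝ) ≤ |(E : ℝ)| := by
    have : (1 : ℤ) ≤ |E| := Int.one_le_abs hE0
    exact_mod_cast this
  have habs : |(Q3 F).eval ξ| * (F.eval ξ) ^ (-5 / 2 : ℝ) * (1 / 8) * V = 6 * (Real.sqrt l * |(E : ℝ)|) := by
    have hA : |(Q3 F).eval ξ * (F.eval ξ) ^ (-5 / 2 : ℝ) * (1 / 8) * V| =
        |(Q3 F).eval ξ| * (F.eval ξ) ^ (-5 / 2 : ℝ) * (1 / 8) * V := by
      rw [abs_mul, abs_mul, abs_mul, abs_of_pos hFpos, abs_of_pos hVpos,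
        abs_of_pos (show (0 : ℝ) < 1 / 8 by norm_num)]
    have hB : |6 * (Real.sqrt l * (E : ℝ))| = 6 * (Real.sqrt l * |(E : ℝ)|) := by
      rw [abs_mul, abs_mul, abs_of_pos (show (0 : ℝ) < 6 by norm_num),
        abs_of_pos (show 0 < Real.sqrt l by linarith)]
    rw [← hA, hr', hB]
  have h6 : (6 : ℝ) ≤ 6 * (Real.sqrt l * |(E : ℝ)|) := by
    have := one_le_mul_of_one_le_of_one_le hl1 hE1
    linarith
  have hVle : V ≤ ((n 3 : ℝ) - n 0) ^ 6 := by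
    rw [hV]
    exact prod6 p01.le p02.le p03.le p12.le p13.le p23.le (by linarith) (by linarith) le_rfl
      (by linarith) (by linarith) (by linarith)
  have hbd : |(Q3 F).eval ξ| * (F.eval ξ) ^ (-5 / 2 : ℝ) ≤ K / n 0 :=
    c4.trans (div_le_div_of_nonneg_left hK.le hn0 hξ.1.le)
  have hfin : (6 : ℝ) ≤ K / n 0 * (1 / 8) * ((n 3 : ℝ) - n 0) ^ 6 := by
    calc (6 : ℝ) ≤ |(Q3 F).eval ξ| * (F.eval ξ) ^ (-5 / 2 : ℝ) * (1 / 8) * V := by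
          rw [habs]; exact h6
      _ ≤ K / n 0 * (1 / 8) * ((n 3 : ℝ) - n 0) ^ 6 := by gcongr
  have h48 : K / n 0 * (1 / 8) * ((n 3 : ℝ) - n 0) ^ 6 =
      (K * ((n 3 : ℝ) - n 0) ^ 6) / (8 * n 0) := by
    field_simp
  rw [h48, le_div_iff₀ (by positivity)] at hfin
  linarith

theorem cb_gap {F : ℝ[X]} {X0 K : ℝ} (hG : Good F X0 K) {l : ℕ} (hl : 0 < l) {n : Fin 3 → ℕ}
    (hn : StrictMono n) (h0 : X0 ≤ n 0) {y : Fin 3 → ℕ}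
    (hy : ∀ i, F.eval (n i : ℝ) = l * (y i : ℝ) ^ 3) :
    (n 0 : ℝ) ^ (2 / 3 : ℝ) ≤ K * ((n 2 : ℝ) - n 0) ^ 3 := by
  obtain ⟨hX0, hK, hall⟩ := hG
  have h01 : (n 0 : ℝ) < n 1 := by exact_mod_cast hn (show (0 : Fin 3) < 1 by decide)
  have h12 : (n 1 : ℝ) < n 2 := by exact_mod_cast hn (show (1 : Fin 3) < 2 by decide)
  have hpos : ∀ x ∈ Icc (n 0 : ℝ) (n 2), 0 < F.eval x := fun x hx => (hall x (h0.trans hx.1)).1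
  obtain ⟨ξ, hξ, hr⟩ := rolle2 h01 h12 (fun x hx => (cbrt_chain (hpos x hx)).1)
    (fun x hx => (cbrt_chain (hpos x hx)).2)
  have hn0 : (0 : ℝ) < n 0 := by linarith
  have hξ0 : 0 < ξ := hn0.trans hξ.1
  obtain ⟨c1, c2, c3, -, c4⟩ := hall ξ (h0.trans hξ.1.le)
  have hg : ∀ i, (F.eval (n i : ℝ)) ^ (1 / 3 : ℝ) = (l : ℝ) ^ (1 / 3 : ℝ) * y i := by
    intro i
    rw [hy i, Real.mul_rpow (by positivity) (by positivity), ← Real.rpow_natCast,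
      ← Real.rpow_mul (by positivity)]
    norm_num
  rw [hg 0, hg 1, hg 2] at hr
  obtain ⟨V, hV⟩ : ∃ V : ℝ, V = ((n 1 : ℝ) - n 0) * (n 2 - n 0) * (n 2 - n 1) := ⟨_, rfl⟩
  rw [← hV] at hr
  set E : ℤ := (y 2 : ℤ) * ((n 1 : ℤ) - n 0) - y 1 * ((n 2 : ℤ) - n 0) +
    y 0 * ((n 2 : ℤ) - n 1) with hE
  have hr' : (Q2 F).eval ξ * (F.eval ξ) ^ (-5 / 3 : ℝ) * (1 / 9) * V =
      2 * ((l : ℝ) ^ (1 / 3 : ℝ) * (E : ℝ)) := by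
    rw [hr, hE]
    push_cast
    ring
  have p01 : 0 < (n 1 : ℝ) - n 0 := by linarith
  have p12 : 0 < (n 2 : ℝ) - n 1 := by linarith
  have p02 : 0 < (n 2 : ℝ) - n 0 := by linarith
  have hVpos : 0 < V := by rw [hV]; positivity
  have hFpos : 0 < (F.eval ξ) ^ (-5 / 3 : ℝ) := Real.rpow_pos_of_pos c1 _
  have hl1 : (1 : ℝ) ≤ (l : ℝ) ^ (1 / 3 : ℝ) :=
    Real.one_le_rpow (by exact_mod_cast hl) (by norm_num)
  have hE0 : E ≠ 0 := by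
    intro h0
    rw [h0] at hr'
    have : (Q2 F).eval ξ * (F.eval ξ) ^ (-5 / 3 : ℝ) * (1 / 9) * V ≠ 0 := by
      refine mul_ne_zero (mul_ne_zero (mul_ne_zero c3 hFpos.ne') (by norm_num)) hVpos.ne'
    apply this
    rw [hr']
    simp
  have hE1 : (1 : ℝ) ≤ |(E : ℝ)| := by
    have : (1 : ℤ) ≤ |E| := Int.one_le_abs hE0
    exact_mod_cast this
  have habs : |(Q2 F).eval ξ| * (F.eval ξ) ^ (-5 / 3 : ℝ) * (1 / 9) * V =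
      2 * ((l : ℝ) ^ (1 / 3 : ℝ) * |(E : ℝ)|) := by
    have hA : |(Q2 F).eval ξ * (F.eval ξ) ^ (-5 / 3 : ℝ) * (1 / 9) * V| =
        |(Q2 F).eval ξ| * (F.eval ξ) ^ (-5 / 3 : ℝ) * (1 / 9) * V := by
      rw [abs_mul, abs_mul, abs_mul, abs_of_pos hFpos, abs_of_pos hVpos,
        abs_of_pos (show (0 : ℝ) < 1 / 9 by norm_num)]
    have hB : |2 * ((l : ℝ) ^ (1 / 3 : ℝ) * (E : ℝ))| = 2 * ((l : ℝ) ^ (1 / 3 : ℝ) * |(E : ℝ)|) := by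
      rw [abs_mul, abs_mul, abs_of_pos (show (0 : ℝ) < 2 by norm_num),
        abs_of_pos (show 0 < (l : ℝ) ^ (1 / 3 : ℝ) by linarith)]
    rw [← hA, hr', hB]
  have h6 : (2 : ℝ) ≤ 2 * ((l : ℝ) ^ (1 / 3 : ℝ) * |(E : ℝ)|) := by
    have := one_le_mul_of_one_le_of_one_le hl1 hE1
    linarith
  have hVle : V ≤ ((n 2 : ℝ) - n 0) ^ 3 := by
    rw [hV]
    exact prod3 p01.le p02.le p12.le (by linarith) le_rfl (by linarith)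
  have hbd : |(Q2 F).eval ξ| * (F.eval ξ) ^ (-5 / 3 : ℝ) ≤ K * (n 0 : ℝ) ^ (-2 / 3 : ℝ) := by
    exact c4.trans (mul_le_mul_of_nonneg_left
      (Real.rpow_le_rpow_of_nonpos hn0 hξ.1.le (by norm_num)) hK.le)
  have hfin : (2 : ℝ) ≤ K * (n 0 : ℝ) ^ (-2 / 3 : ℝ) * (1 / 9) * ((n 2 : ℝ) - n 0) ^ 3 := by
    calc (2 : ℝ) ≤ |(Q2 F).eval ξ| * (F.eval ξ) ^ (-5 / 3 : ℝ) * (1 / 9) * V := by
          rw [habs]; exact h6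
      _ ≤ K * (n 0 : ℝ) ^ (-2 / 3 : ℝ) * (1 / 9) * ((n 2 : ℝ) - n 0) ^ 3 := by gcongr
  have hinv : (n 0 : ℝ) ^ (-2 / 3 : ℝ) * (n 0 : ℝ) ^ (2 / 3 : ℝ) = 1 := by
    rw [← Real.rpow_add hn0]
    norm_num
  have hpow : 0 < (n 0 : ℝ) ^ (2 / 3 : ℝ) := Real.rpow_pos_of_pos hn0 _
  have := mul_le_mul_of_nonneg_right hfin hpow.le
  have h9 : K * (n 0 : ℝ) ^ (-2 / 3 : ℝ) * (1 / 9) * ((n 2 : ℝ) - n 0) ^ 3 * (n 0 : ℝ) ^ (2 / 3 : ℝ) =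
      (1 / 9) * (K * ((n 2 : ℝ) - n 0) ^ 3) := by
    calc _ = (1 / 9) * (K * ((n 2 : ℝ) - n 0) ^ 3) *
        ((n 0 : ℝ) ^ (-2 / 3 : ℝ) * (n 0 : ℝ) ^ (2 / 3 : ℝ)) := by ring
      _ = _ := by rw [hinv, mul_one]
  rw [h9] at this
  have hnn : 0 < K * ((n 2 : ℝ) - n 0) ^ 3 := by positivity
  linarith

end Pool.PV57
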