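import Pool.Agent.PV57.Curve

/-!
# Three and four integral points on `l y ^ 3 = f(x)` and `l y ^ 2 = f(x)` are spread
-/

namespace Pool.PV57

open Polynomial Filter Set

/-- `8 F^{5/2} (√F)'''`. -/
noncomputable def Q3 (F : ℝ[X]) : ℝ[X] :=
  C 3 * F.derivative ^ 3 - C 6 * F * F.derivative * F.derivative.derivative +
    C 4 * F ^ 2 * F.derivative.derivative.derivative

/-- `9 F^{5/3} (F^{1/3})''`. -/
noncomputable def Q2 (F : ℝ[X]) : ℝ[X] :=
  C 3 * F * F.derivative.derivative - C 2 * F.derivative ^ 2

theorem not_dvd_const {F : ℝ[X]} (hD : 1 ≤ F.natDegree) {c : ℝ} (hc : c ≠ 0) : ¬ F ∣ C c := by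
  intro h
  have h1 : F.natDegree ≤ (C c : ℝ[X]).natDegree := natDegree_le_of_dvd h (C_ne_zero.2 hc)
  rw [natDegree_C] at h1
  omega

theorem Q3_ne_zero {F : ℝ[X]} (hD : 1 ≤ F.natDegree) (hF : IsCoprime F F.derivative) :
    Q3 F ≠ 0 := by
  intro h0
  apply not_dvd_const hD (c := 3) (by norm_num)
  have h1 : F ∣ C 3 * F.derivative ^ 3 := by
    refine ⟨C 6 * F.derivative * F.derivative.derivative -
      C 4 * F * F.derivative.derivative.derivative, ?_⟩
    unfold Q3 at h0
    linear_combination h0
  exact (hF.pow_right (n := 3)).dvd_of_dvd_mul_right h1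

theorem Q2_ne_zero {F : ℝ[X]} (hD : 1 ≤ F.natDegree) (hF : IsCoprime F F.derivative) :
    Q2 F ≠ 0 := by
  intro h0
  apply not_dvd_const hD (c := 2) (by norm_num)
  have h1 : F ∣ C 2 * F.derivative ^ 2 := by
    refine ⟨C 3 * F.derivative.derivative, ?_⟩
    unfold Q2 at h0
    linear_combination -h0
  exact (hF.pow_right (n := 2)).dvd_of_dvd_mul_right h1

theorem deg3 {F : ℝ[X]} (hD : 1 ≤ F.natDegree) (hD4 : F.natDegree ≤ 4) :
    2 * (1 + (Q3 F).natDegree) ≤ 5 * F.natDegree := by
  have h1 := natDegree_derivative_le F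
  have h2 := natDegree_derivative_le F.derivative
  have h3 := natDegree_derivative_le F.derivative.derivative
  have a1 : (C 3 * F.derivative ^ 3 : ℝ[X]).natDegree ≤ 3 * F.derivative.natDegree :=
    (natDegree_C_mul_le _ _).trans (natDegree_pow_le)
  rcases Nat.lt_or_ge F.natDegree 2 with h | h
  · have e1 : F.derivative.natDegree = 0 := by omega
    have e2 : F.derivative.derivative = 0 := derivative_of_natDegree_zero e1
    have : (Q3 F).natDegree ≤ 0 := by
      unfold Q3
      rw [e2]
      simp only [mul_zero, derivative_zero, sub_zero, add_zero]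
      omega
    omega
  rcases Nat.lt_or_ge F.natDegree 3 with h' | h'
  · have e1 : F.derivative.derivative.natDegree = 0 := by omega
    have e2 : F.derivative.derivative.derivative = 0 := derivative_of_natDegree_zero e1
    have : (Q3 F).natDegree ≤ 3 := by
      unfold Q3
      rw [e2]
      simp only [mul_zero, add_zero]
      refine (natDegree_sub_le _ _).trans (max_le (by omega) ?_)
      refine natDegree_mul_le.trans ?_
      have : (C 6 * F * F.derivative : ℝ[X]).natDegree ≤ F.natDegree + F.derivative.natDegree :=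
        natDegree_mul_le.trans (Nat.add_le_add_right (natDegree_C_mul_le _ _) _)
      omega
    omega
  · have b1 : (C 6 * F * F.derivative * F.derivative.derivative : ℝ[X]).natDegree ≤
        F.natDegree + F.derivative.natDegree + F.derivative.derivative.natDegree :=
      natDegree_mul_le.trans (Nat.add_le_add_right
        (natDegree_mul_le.trans (Nat.add_le_add_right (natDegree_C_mul_le _ _) _)) _)
    have b2 : (C 4 * F ^ 2 * F.derivative.derivative.derivative : ℝ[X]).natDegree ≤
        2 * F.natDegree + F.derivative.derivative.derivative.natDegree :=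
      natDegree_mul_le.trans (Nat.add_le_add_right
        ((natDegree_C_mul_le _ _).trans natDegree_pow_le) _)
    have : (Q3 F).natDegree ≤ 3 * F.natDegree - 3 := by
      unfold Q3
      refine (natDegree_add_le _ _).trans (max_le ((natDegree_sub_le _ _).trans (max_le ?_ ?_)) ?_)
      · omega
      · omega
      · omega
    omega

theorem deg2 {F : ℝ[X]} (hD : 1 ≤ F.natDegree) (hD4 : F.natDegree ≤ 4) :
    2 + 3 * (Q2 F).natDegree ≤ 5 * F.natDegree := by
  have h1 := natDegree_derivative_le F
  have h2 := natDegree_derivative_le F.derivative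
  have a1 : (C 2 * F.derivative ^ 2 : ℝ[X]).natDegree ≤ 2 * F.derivative.natDegree :=
    (natDegree_C_mul_le _ _).trans (natDegree_pow_le)
  rcases Nat.lt_or_ge F.natDegree 2 with h | h
  · have e1 : F.derivative.natDegree = 0 := by omega
    have e2 : F.derivative.derivative = 0 := derivative_of_natDegree_zero e1
    have : (Q2 F).natDegree ≤ 0 := by
      unfold Q2
      rw [e2]
      simp only [mul_zero, zero_sub, natDegree_neg]
      omega
    omega
  · have b1 : (C 3 * F * F.derivative.derivative : ℝ[X]).natDegree ≤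
        F.natDegree + F.derivative.derivative.natDegree :=
      natDegree_mul_le.trans (Nat.add_le_add_right (natDegree_C_mul_le _ _) _)
    have : (Q2 F).natDegree ≤ 2 * F.natDegree - 2 := by
      unfold Q2
      refine (natDegree_sub_le _ _).trans (max_le ?_ ?_)
      · omega
      · omega
    omega

theorem eventually_bound {P F : ℝ[X]} (h : P.natDegree ≤ F.natDegree) (hF0 : F ≠ 0)
    (hpos : ∀ᶠ x in atTop, 0 < F.eval x) :
    ∃ K : ℝ, 0 < K ∧ ∀ᶠ x in atTop, |P.eval x| ≤ K * F.eval x := by
  have hdeg : P.degree ≤ F.degree := by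
    rw [degree_eq_natDegree hF0]
    exact degree_le_natDegree.trans (by exact_mod_cast h)
  obtain ⟨K, hK, hb⟩ := (isBigO_atTop_of_degree_le P F hdeg).exists_pos
  refine ⟨K, hK, ?_⟩
  filter_upwards [hb.bound, hpos] with x hx hx'
  simpa [Real.norm_eq_abs, abs_of_pos hx'] using hx

end Pool.PV57
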