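import Pool.Agent.PV57.Cover

/-!
# The count for a polynomial with positive leading coefficient
-/

namespace Pool.PV57

open Polynomial Finset

/-- Every prime not dividing `Δ` that divides `f(n)` divides it at least twice. -/
def PowAway (f : ℤ[X]) (Δ : ℕ) (n : ℤ) : Prop :=
  ∀ p : ℕ, p.Prime → ¬ p ∣ Δ → (p : ℤ) ∣ f.eval n → (p : ℤ) ^ 2 ∣ f.eval n

theorem cover {f : ℤ[X]} {F : ℝ[X]} (hFf : ∀ n : ℕ, F.eval (n : ℝ) = ((f.eval (n : ℤ) : ℤ) : ℝ))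
    {Δ c N n : ℕ} (hΔ : 0 < Δ) (hN : 1 ≤ N) (hnN : n ≤ N)
    (hMn : (N : ℝ) ^ (23 / 24 : ℝ) ≤ n) (hpos : 0 < F.eval (n : ℝ))
    (hc : F.eval (n : ℝ) ≤ c * (N : ℝ) ^ 4) (hcN : (c : ℝ) ≤ (N : ℝ) ^ (1 / 2 : ℝ))
    (hcond : PowAway f Δ n) :
    n ∈ (((Δ ^ (Nat.log 2 (c * N ^ 4) + 1)).divisors ×ˢ
        Icc 1 ⌊(N : ℝ) ^ (1 / 12 : ℝ)⌋₊).biUnion fun p => sqSet F N (p.1 * p.2)) ∪
      ((((Δ ^ (Nat.log 2 (c * N ^ 4) + 1)).divisors ×ˢ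
        Icc 1 ⌊(N : ℝ) ^ (1 / 12 : ℝ)⌋₊).biUnion fun p => cbSet F N (p.1 * p.2 ^ 2)) ∪
        midSet f Δ N) := by
  have hN1 : (1 : ℝ) ≤ N := by exact_mod_cast hN
  have hN0 : (0 : ℝ) < N := by linarith
  rw [hFf] at hpos hc
  have hfpos : 0 < f.eval (n : ℤ) := by exact_mod_cast hpos
  obtain ⟨m, hm⟩ : ∃ m : ℕ, (m : ℤ) = f.eval (n : ℤ) := ⟨(f.eval (n : ℤ)).toNat,
    Int.toNat_of_nonneg hfpos.le⟩
  have hm0 : m ≠ 0 := by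
    rintro rfl
    rw [← hm] at hfpos
    simp at hfpos
  have hcm : m ≤ c * N ^ 4 := by
    rw [← hm] at hc
    exact_mod_cast hc
  obtain ⟨l, a, b, hlab, haΔ, hbΔ, hl⟩ := exists_decomp hm0 (Δ := Δ) (by
    intro p hp hpΔ hpm
    have h1 : (p : ℤ) ∣ f.eval (n : ℤ) := by
      rw [← hm]
      exact_mod_cast hpm
    have h2 := hcond p hp hpΔ h1
    rw [← hm] at h2
    exact_mod_cast h2)
  have hl0 : l ≠ 0 := by
    rintro rfl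
    simp at hlab
    exact hm0 hlab
  have ha0 : a ≠ 0 := by
    rintro rfl
    simp at hlab
    exact hm0 hlab
  have hb0 : b ≠ 0 := by
    rintro rfl
    simp at hlab
    exact hm0 hlab
  have hlm : l ≤ m := by
    rw [hlab, mul_assoc]
    exact Nat.le_mul_of_pos_right l (by positivity)
  have hldiv : l ∈ (Δ ^ (Nat.log 2 (c * N ^ 4) + 1)).divisors := by
    rw [Nat.mem_divisors]
    refine ⟨dvd_pow_of_le hl0 hΔ.ne' ?_ hl, pow_ne_zero _ hΔ.ne'⟩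
    exact (hlm.trans hcm).trans (Nat.lt_pow_succ_log_self (by norm_num) _).le
  have hval : F.eval (n : ℝ) = (l : ℝ) * (a : ℝ) ^ 2 * (b : ℝ) ^ 3 := by
    rw [hFf, ← hm, hlab]
    push_cast
    ring
  rw [mem_union, mem_union]
  by_cases hb : (b : ℝ) ≤ (N : ℝ) ^ (1 / 12 : ℝ)
  · left
    rw [mem_biUnion]
    refine ⟨(l, b), mem_product.2 ⟨hldiv, mem_Icc.2 ⟨Nat.pos_of_ne_zero hb0, Nat.le_floor hb⟩⟩, ?_⟩
    rw [mem_sqSet]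
    refine ⟨hnN, hMn, a * b, ?_⟩
    rw [hval]
    push_cast
    ring
  right
  push Not at hb
  by_cases hb' : (b : ℝ) ≤ (N : ℝ) ^ (9 / 10 : ℝ)
  · right
    unfold midSet
    rw [mem_biUnion]
    refine ⟨b, mem_filter.2 ⟨mem_Ioc.2 ⟨(Nat.floor_lt (by positivity)).2 hb, Nat.le_floor hb'⟩,
      hbΔ⟩, ?_⟩
    rw [mem_filter, mem_range, ← hm]
    refine ⟨by omega, ?_⟩
    rw [Int.natCast_dvd_natCast, hlab]
    exact Dvd.intro_left (l * a ^ 2 * b) (by ring)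
  push Not at hb'
  by_cases ha : (a : ℝ) ≤ (N : ℝ) ^ (1 / 12 : ℝ)
  · left
    rw [mem_biUnion]
    refine ⟨(l, a), mem_product.2 ⟨hldiv, mem_Icc.2 ⟨Nat.pos_of_ne_zero ha0, Nat.le_floor ha⟩⟩, ?_⟩
    rw [mem_cbSet]
    refine ⟨hnN, hMn, b, ?_⟩
    rw [hval]
    push_cast
    ring
  push Not at ha
  right
  have ha' : (a : ℝ) ≤ (N : ℝ) ^ (9 / 10 : ℝ) := by
    have h1 : (a : ℝ) ^ 2 * ((N : ℝ) ^ (9 / 10 : ℝ)) ^ 3 ≤ (N : ℝ) ^ (1 / 2 : ℝ) * (N : ℝ) ^ 4 := by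
      have hl1 : (1 : ℝ) ≤ l := by exact_mod_cast Nat.pos_of_ne_zero hl0
      have h2 : (l : ℝ) * (a : ℝ) ^ 2 * (b : ℝ) ^ 3 ≤ c * (N : ℝ) ^ 4 := by
        rw [← hval, hFf]
        exact hc
      have h3 : (a : ℝ) ^ 2 * ((N : ℝ) ^ (9 / 10 : ℝ)) ^ 3 ≤ (a : ℝ) ^ 2 * (b : ℝ) ^ 3 := by
        gcongr
      have h4 : (a : ℝ) ^ 2 * (b : ℝ) ^ 3 ≤ (l : ℝ) * (a : ℝ) ^ 2 * (b : ℝ) ^ 3 := by
        rw [mul_assoc]
        exact le_mul_of_one_le_left (by positivity) hl1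
      have h5 : (c : ℝ) * (N : ℝ) ^ 4 ≤ (N : ℝ) ^ (1 / 2 : ℝ) * (N : ℝ) ^ 4 := by
        gcongr
      linarith
    have h6 : ((N : ℝ) ^ (9 / 10 : ℝ)) ^ 3 = (N : ℝ) ^ (27 / 10 : ℝ) := by
      rw [← Real.rpow_natCast, ← Real.rpow_mul hN0.le]
      norm_num
    have h7 : (N : ℝ) ^ (1 / 2 : ℝ) * (N : ℝ) ^ 4 = (N : ℝ) ^ (9 / 2 : ℝ) := by
      rw [← Real.rpow_natCast (N : ℝ) 4, ← Real.rpow_add hN0]
      norm_num
    rw [h6, h7] at h1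
    have h8 : (N : ℝ) ^ (9 / 2 : ℝ) = (N : ℝ) ^ (9 / 5 : ℝ) * (N : ℝ) ^ (27 / 10 : ℝ) := by
      rw [← Real.rpow_add hN0]
      norm_num
    rw [h8] at h1
    have h9 : (a : ℝ) ^ 2 ≤ (N : ℝ) ^ (9 / 5 : ℝ) := le_of_mul_le_mul_right h1 (by positivity)
    have h10 : (N : ℝ) ^ (9 / 5 : ℝ) = ((N : ℝ) ^ (9 / 10 : ℝ)) ^ 2 := by
      rw [← Real.rpow_natCast, ← Real.rpow_mul hN0.le]
      norm_num
    rw [h10] at h9
    exact le_of_sq_le_sq h9 (by positivity)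
  unfold midSet
  rw [mem_biUnion]
  refine ⟨a, mem_filter.2 ⟨mem_Ioc.2 ⟨(Nat.floor_lt (by positivity)).2 ha, Nat.le_floor ha'⟩,
    haΔ⟩, ?_⟩
  rw [mem_filter, mem_range, ← hm]
  refine ⟨by omega, ?_⟩
  rw [Int.natCast_dvd_natCast, hlab]
  exact Dvd.intro_left (l * b ^ 3) (by ring)

end Pool.PV57
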