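import Pool.Agent.PV57.Final

/-!
# Powerful values of a polynomial with a simple root of degree at most four
-/

namespace Pool.PV57

open Polynomial

theorem main_count (P : ℤ[X]) (α : ℂ)
    (hα : (P.map (Int.castRingHom ℂ)).rootMultiplicity α = 1)
    (hdeg : (minpoly ℚ α).natDegree ≤ 4) :
    ∃ C : ℝ, 0 < C ∧ ∀ N : ℕ, 1 ≤ N →
      (({n : ℤ | |n| ≤ N ∧ ∀ p : ℕ, p.Prime → (p : ℤ) ∣ P.eval n →
        (p : ℤ) ^ 2 ∣ P.eval n}).ncard : ℝ) ≤ C * (N : ℝ) ^ (23 / 24 : ℝ) := by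
  set PC := P.map (Int.castRingHom ℂ) with hPC
  have hPC0 : PC ≠ 0 := by
    intro h0
    rw [h0, rootMultiplicity_zero] at hα
    exact zero_ne_one hα
  set PQ := P.map (Int.castRingHom ℚ) with hPQ
  have hmap : PQ.map (algebraMap ℚ ℂ) = PC := by
    rw [hPQ, hPC, Polynomial.map_map]
    congr 1
  have hPQ0 : PQ ≠ 0 := by
    intro h0
    rw [h0, Polynomial.map_zero] at hmap
    exact hPC0 hmap.symm
  have hroot : PC.IsRoot α := by
    rw [← rootMultiplicity_pos hPC0, hα]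
    norm_num
  have haev : aeval α PQ = 0 := by
    rw [aeval_def, ← eval_map, hmap]
    exact hroot
  have hint : IsIntegral ℚ α := (show IsAlgebraic ℚ α from ⟨PQ, hPQ0, haev⟩).isIntegral
  set m := minpoly ℚ α with hm
  have hirr : Irreducible m := minpoly.irreducible hint
  obtain ⟨q, hq⟩ := minpoly.dvd ℚ α haev
  rw [← hm] at hq
  have hnd : ¬ m ∣ q := by
    rintro ⟨r, hr⟩
    have h1 : (X - C α) ∣ m.map (algebraMap ℚ ℂ) := by
      rw [dvd_iff_isRoot, IsRoot.def, eval_map, ← aeval_def]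
      exact minpoly.aeval ℚ α
    have h2 : (X - C α) ^ 2 ∣ PC := by
      rw [← hmap, hq, hr, Polynomial.map_mul, Polynomial.map_mul, ← mul_assoc, ← sq]
      exact (pow_dvd_pow_of_dvd h1 2).mul_right _
    have h3 := (le_rootMultiplicity_iff hPC0).2 h2
    omega
  have hcop : IsCoprime m q := (hirr.coprime_iff_not_dvd).2 hnd
  have hsep : IsCoprime m m.derivative := hirr.separable
  obtain ⟨d1, f, hd1, hf⟩ := clear m
  obtain ⟨d2, g, hd2, hg⟩ := clear q
  have hd1' : (d1 : ℚ) ≠ 0 := by exact_mod_cast hd1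
  have hd2' : (d2 : ℚ) ≠ 0 := by exact_mod_cast hd2
  have hu1 : IsUnit (C (d1 : ℚ)) := isUnit_C.2 hd1'.isUnit
  have hu2 : IsUnit (C (d2 : ℚ)) := isUnit_C.2 hd2'.isUnit
  have hinj : Function.Injective (Int.castRingHom ℚ) := Int.cast_injective
  have hfd : f.natDegree = m.natDegree := by
    rw [← natDegree_map_eq_of_injective hinj f, hf, natDegree_C_mul hd1']
  have hD : 1 ≤ f.natDegree := by
    rw [hfd]
    exact hirr.natDegree_pos
  have hD4 : f.natDegree ≤ 4 := by rwa [hfd]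
  have hfg : f * g = C (d1 * d2) * P := by
    apply Polynomial.map_injective _ hinj
    rw [Polynomial.map_mul, Polynomial.map_mul, hf, hg, map_C, ← hPQ, hq]
    simp only [eq_intCast, Int.cast_mul, C_mul]
    ring
  have hc1 : IsCoprime (f.map (Int.castRingHom ℚ)) (f.derivative.map (Int.castRingHom ℚ)) := by
    rw [← derivative_map, hf, derivative_C_mul]
    exact (isCoprime_mul_unit_left hu1 _ _).2 hsep
  have hc2 : IsCoprime (f.map (Int.castRingHom ℚ)) (g.map (Int.castRingHom ℚ)) := by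
    rw [hf, hg]
    exact (isCoprime_mul_unit_left_left hu1 _ _).2 ((isCoprime_mul_unit_left_right hu2 _ _).2 hcop)
  have hcR : IsCoprime (f.map (Int.castRingHom ℝ)) (f.map (Int.castRingHom ℝ)).derivative := by
    have h1 := hc1.map (mapRingHom (algebraMap ℚ ℝ))
    rw [coe_mapRingHom, Polynomial.map_map, Polynomial.map_map] at h1
    have h2 : (algebraMap ℚ ℝ).comp (Int.castRingHom ℚ) = Int.castRingHom ℝ :=
      RingHom.ext_int _ _
    rw [h2] at h1
    rwa [derivative_map]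
  obtain ⟨u1, v1, R1, hR1, e1⟩ := bezout hc1
  obtain ⟨u2, v2, R2, hR2, e2⟩ := bezout hc2
  have hf0 : f ≠ 0 := by
    rintro rfl
    simp at hD
  have hlc : f.leadingCoeff ≠ 0 := leadingCoeff_ne_zero.2 hf0
  set Δ : ℕ := f.leadingCoeff.natAbs * (R1.natAbs * (R2.natAbs * (d1 * d2).natAbs)) with hΔ
  have hSep : Sep f Δ := by
    refine ⟨?_, ?_, ?_⟩
    · rw [hΔ]
      have := Int.natAbs_pos.2 hlc
      have := Int.natAbs_pos.2 hR1
      have := Int.natAbs_pos.2 hR2
      have := Int.natAbs_pos.2 (mul_ne_zero hd1 hd2)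
      positivity
    · intro p _ hp
      rw [hΔ]
      exact (Int.natCast_dvd.1 hp).mul_right _
    · intro p _ n h1 h2
      rw [hΔ]
      exact (((Int.natCast_dvd.1 (bezout_prime e1 h1 h2)).mul_right _)).mul_left _
  obtain ⟨C0, hC0, hb⟩ := int_count hSep hD hD4 hcR
  refine ⟨C0, hC0, fun N hN => ?_⟩
  refine le_trans ?_ (hb N hN)
  have hsub : {n : ℤ | |n| ≤ N ∧ ∀ p : ℕ, p.Prime → (p : ℤ) ∣ P.eval n →
      (p : ℤ) ^ 2 ∣ P.eval n} ⊆ {n : ℤ | |n| ≤ N ∧ PowAway f Δ n} := by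
    rintro n ⟨hn1, hn2⟩
    refine ⟨hn1, ?_⟩
    intro p hp hpΔ hpf
    have hpp : Prime (p : ℤ) := Nat.prime_iff_prime_int.1 hp
    have heq : f.eval n * g.eval n = d1 * d2 * P.eval n := by
      rw [← eval_mul, hfg, eval_mul, eval_C]
    have hpg : ¬ (p : ℤ) ∣ g.eval n := by
      intro hpg
      apply hpΔ
      rw [hΔ]
      exact (((Int.natCast_dvd.1 (bezout_prime e2 hpf hpg)).mul_right _).mul_left _).mul_left _
    have hpd : ¬ (p : ℤ) ∣ d1 * d2 := by
      intro hpd
      apply hpΔ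
      rw [hΔ]
      exact (((Int.natCast_dvd.1 hpd).mul_left _).mul_left _).mul_left _
    have hpP : (p : ℤ) ∣ P.eval n := by
      have h1 : (p : ℤ) ∣ d1 * d2 * P.eval n := by
        rw [← heq]
        exact hpf.mul_right _
      exact (hpp.dvd_or_dvd h1).resolve_left hpd
    have hp2 : (p : ℤ) ^ 2 ∣ f.eval n * g.eval n := by
      rw [heq]
      exact (hn2 p hp hpP).mul_left _
    have hcopg : IsCoprime ((p : ℤ) ^ 2) (g.eval n) :=
      ((hpp.coprime_iff_not_dvd).2 hpg).pow_left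
    exact hcopg.dvd_of_dvd_mul_right hp2
  have hfin : {n : ℤ | |n| ≤ N ∧ PowAway f Δ n}.Finite := by
    apply (Set.finite_Icc (-(N : ℤ)) N).subset
    rintro n ⟨hn, -⟩
    exact abs_le.1 hn
  exact_mod_cast Set.ncard_le_ncard hsub hfin

theorem natDegree_minpoly_le {P : ℤ[X]} {α : ℂ}
    (hα : (P.map (Int.castRingHom ℂ)).rootMultiplicity α = 1) :
    (minpoly ℚ α).natDegree ≤ P.natDegree := by
  have hPC0 : P.map (Int.castRingHom ℂ) ≠ 0 := by
    intro h0
    rw [h0, rootMultiplicity_zero] at hα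
    exact zero_ne_one hα
  have hroot : (P.map (Int.castRingHom ℂ)).IsRoot α := by
    rw [← rootMultiplicity_pos hPC0, hα]
    norm_num
  have hmap : (P.map (Int.castRingHom ℚ)).map (algebraMap ℚ ℂ) = P.map (Int.castRingHom ℂ) := by
    rw [Polynomial.map_map]
    congr 1
  have haev : aeval α (P.map (Int.castRingHom ℚ)) = 0 := by
    rw [aeval_def, ← eval_map, hmap]
    exact hroot
  have hPQ0 : P.map (Int.castRingHom ℚ) ≠ 0 := by
    intro h0
    rw [h0, Polynomial.map_zero] at hmap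
    exact hPC0 hmap.symm
  have h1 := natDegree_le_of_dvd (minpoly.dvd ℚ α haev) hPQ0
  rwa [natDegree_map_eq_of_injective (show Function.Injective (Int.castRingHom ℚ) from
    Int.cast_injective) P] at h1

end Pool.PV57
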