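import Pool.Agent.PV57.Poly

/-!
# Three and four integral points on `l y ^ 3 = f(x)` and `l y ^ 2 = f(x)` are spread
-/

namespace Pool.PV57

open Polynomial Filter Set

theorem hasDerivAt_pow {F P : ℝ[X]} {x : ℝ} (hx : 0 < F.eval x) (a : ℝ) :
    HasDerivAt (fun x => P.eval x * (F.eval x) ^ a)
      (P.derivative.eval x * (F.eval x) ^ a +
        P.eval x * (F.derivative.eval x * a * (F.eval x) ^ (a - 1))) x :=
  (P.hasDerivAt x).mul ((F.hasDerivAt x).rpow_const (Or.inl hx.ne'))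

theorem rpow_step {t : ℝ} (ht : 0 < t) (a : ℝ) : t ^ a = t ^ (a - 1) * t := by
  rw [← Real.rpow_add_one ht.ne']
  ring_nf

/-- The three derivatives of `√F`. -/
theorem sqrt_chain {F : ℝ[X]} {x : ℝ} (hx : 0 < F.eval x) :
    HasDerivAt (fun x => (F.eval x) ^ (1 / 2 : ℝ))
      (F.derivative.eval x * (F.eval x) ^ (-1 / 2 : ℝ) * (1 / 2)) x ∧
    HasDerivAt (fun x => F.derivative.eval x * (F.eval x) ^ (-1 / 2 : ℝ) * (1 / 2))
      ((1 / 2) * (F.derivative.derivative.eval x * (F.eval x) ^ (-1 / 2 : ℝ)) -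
        (1 / 4) * ((F.derivative ^ 2).eval x * (F.eval x) ^ (-3 / 2 : ℝ))) x ∧
    HasDerivAt (fun x => (1 / 2) * (F.derivative.derivative.eval x * (F.eval x) ^ (-1 / 2 : ℝ)) -
        (1 / 4) * ((F.derivative ^ 2).eval x * (F.eval x) ^ (-3 / 2 : ℝ)))
      ((Q3 F).eval x * (F.eval x) ^ (-5 / 2 : ℝ) * (1 / 8)) x := by
  have e1 : (F.eval x) ^ (-1 / 2 : ℝ) = (F.eval x) ^ (-5 / 2 : ℝ) * (F.eval x) ^ 2 := by
    rw [rpow_step hx (-1 / 2), rpow_step hx (-1 / 2 - 1)]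
    norm_num
    ring
  have e2 : (F.eval x) ^ (-3 / 2 : ℝ) = (F.eval x) ^ (-5 / 2 : ℝ) * F.eval x := by
    rw [rpow_step hx (-3 / 2)]
    norm_num
  refine ⟨?_, ?_, ?_⟩
  · have h := (F.hasDerivAt x).rpow_const (p := (1 / 2 : ℝ)) (Or.inl hx.ne')
    refine h.congr_deriv ?_
    norm_num
    ring
  · have h := (hasDerivAt_pow (P := F.derivative) hx (-1 / 2 : ℝ)).mul_const (1 / 2)
    refine h.congr_deriv ?_
    rw [show (-1 / 2 - 1 : ℝ) = -3 / 2 by norm_num, eval_pow]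
    ring
  · have h := ((hasDerivAt_pow (P := F.derivative.derivative) hx (-1 / 2 : ℝ)).const_mul (1 / 2)).sub
      ((hasDerivAt_pow (P := F.derivative ^ 2) hx (-3 / 2 : ℝ)).const_mul (1 / 4))
    refine h.congr_deriv ?_
    rw [show (-1 / 2 - 1 : ℝ) = -3 / 2 by norm_num, show (-3 / 2 - 1 : ℝ) = -5 / 2 by norm_num,
      e1, e2]
    simp only [Q3, eval_add, eval_sub, eval_mul, eval_pow, eval_C, derivative_pow,
      Nat.cast_ofNat]
    norm_num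
    ring

/-- The two derivatives of `F ^ (1/3)`. -/
theorem cbrt_chain {F : ℝ[X]} {x : ℝ} (hx : 0 < F.eval x) :
    HasDerivAt (fun x => (F.eval x) ^ (1 / 3 : ℝ))
      (F.derivative.eval x * (F.eval x) ^ (-2 / 3 : ℝ) * (1 / 3)) x ∧
    HasDerivAt (fun x => F.derivative.eval x * (F.eval x) ^ (-2 / 3 : ℝ) * (1 / 3))
      ((Q2 F).eval x * (F.eval x) ^ (-5 / 3 : ℝ) * (1 / 9)) x := by
  have e1 : (F.eval x) ^ (-2 / 3 : ℝ) = (F.eval x) ^ (-5 / 3 : ℝ) * F.eval x := by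
    rw [rpow_step hx (-2 / 3)]
    norm_num
  refine ⟨?_, ?_⟩
  · have h := (F.hasDerivAt x).rpow_const (p := (1 / 3 : ℝ)) (Or.inl hx.ne')
    refine h.congr_deriv ?_
    norm_num
    ring
  · have h := (hasDerivAt_pow (P := F.derivative) hx (-2 / 3 : ℝ)).mul_const (1 / 3)
    refine h.congr_deriv ?_
    rw [show (-2 / 3 - 1 : ℝ) = -5 / 3 by norm_num, e1]
    simp only [Q2, eval_sub, eval_mul, eval_pow, eval_C]
    ring

/-- Constants for the two curves. -/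
theorem exists_const {F : ℝ[X]} (hD : 1 ≤ F.natDegree) (hD4 : F.natDegree ≤ 4)
    (hF : IsCoprime F F.derivative) (hlead : 0 < F.leadingCoeff) :
    ∃ X0 K : ℝ, 1 ≤ X0 ∧ 0 < K ∧ ∀ x, X0 ≤ x → 0 < F.eval x ∧ (Q3 F).eval x ≠ 0 ∧
      (Q2 F).eval x ≠ 0 ∧ |(Q3 F).eval x| * (F.eval x) ^ (-5 / 2 : ℝ) ≤ K / x ∧
      |(Q2 F).eval x| * (F.eval x) ^ (-5 / 3 : ℝ) ≤ K * x ^ (-2 / 3 : ℝ) := by
  have hF0 : F ≠ 0 := by
    rintro rfl
    simp at hlead
  have hpos : ∀ᶠ x in atTop, 0 < F.eval x := by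
    have := F.tendsto_atTop_of_leadingCoeff_nonneg (natDegree_pos_iff_degree_pos.1 hD) hlead.le
    exact this.eventually_gt_atTop 0
  have hF5 : F ^ 5 ≠ 0 := pow_ne_zero _ hF0
  have hpos5 : ∀ᶠ x in atTop, 0 < (F ^ 5).eval x := by
    filter_upwards [hpos] with x hx
    rw [eval_pow]
    positivity
  obtain ⟨K1, hK1, hb1⟩ := eventually_bound (P := (X * Q3 F) ^ 2) (F := F ^ 5) (by
    rw [natDegree_pow F 5]
    refine natDegree_pow_le.trans ?_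
    have := deg3 hD hD4
    have h2 : (X * Q3 F).natDegree ≤ 1 + (Q3 F).natDegree :=
      natDegree_mul_le.trans (by rw [natDegree_X])
    omega) hF5 hpos5
  obtain ⟨K2, hK2, hb2⟩ := eventually_bound (P := X ^ 2 * Q2 F ^ 3) (F := F ^ 5) (by
    rw [natDegree_pow F 5]
    refine natDegree_mul_le.trans ?_
    have := deg2 hD hD4
    have h2 : (Q2 F ^ 3).natDegree ≤ 3 * (Q2 F).natDegree := natDegree_pow_le
    rw [natDegree_X_pow]
    omega) hF5 hpos5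
  have hev := hb1.and (hb2.and (hpos.and ((eventually_atTop_not_isRoot _ (Q3_ne_zero hD hF)).and
    (eventually_atTop_not_isRoot _ (Q2_ne_zero hD hF)))))
  obtain ⟨X0, hX0⟩ := eventually_atTop.1 hev
  refine ⟨max X0 1, max (K1 ^ (1 / 2 : ℝ)) (K2 ^ (1 / 3 : ℝ)), le_max_right _ _,
    lt_max_of_lt_left (by positivity), ?_⟩
  intro x hx
  have hx1 : 1 ≤ x := (le_max_right _ _).trans hx
  have hx0 : 0 < x := by linarith
  obtain ⟨h1, h2, h3, h4, h5⟩ := hX0 x ((le_max_left _ _).trans hx)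
  refine ⟨h3, h4, h5, ?_, ?_⟩
  · simp only [eval_pow, eval_mul, eval_X] at h1
    rw [abs_of_nonneg (by positivity)] at h1
    have h6 : x * |(Q3 F).eval x| ≤ K1 ^ (1 / 2 : ℝ) * (F.eval x) ^ (5 / 2 : ℝ) := by
      have h7 : (x * |(Q3 F).eval x|) ^ 2 ≤ (K1 ^ (1 / 2 : ℝ) * (F.eval x) ^ (5 / 2 : ℝ)) ^ 2 := by
        rw [mul_pow, mul_pow, sq_abs, ← mul_pow, ← Real.rpow_natCast (K1 ^ (1 / 2 : ℝ)),
          ← Real.rpow_natCast ((F.eval x) ^ (5 / 2 : ℝ)), ← Real.rpow_mul hK1.le,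
          ← Real.rpow_mul h3.le]
        norm_num
        calc _ ≤ K1 * (F.eval x) ^ 5 := h1
          _ = _ := by rw [← Real.rpow_natCast]
      exact le_of_sq_le_sq h7 (by positivity)
    rw [le_div_iff₀ hx0]
    have h8 : (F.eval x) ^ (5 / 2 : ℝ) * (F.eval x) ^ (-5 / 2 : ℝ) = 1 := by
      rw [← Real.rpow_add h3]
      norm_num
    calc |(Q3 F).eval x| * (F.eval x) ^ (-5 / 2 : ℝ) * x =
        (x * |(Q3 F).eval x|) * (F.eval x) ^ (-5 / 2 : ℝ) := by ring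
      _ ≤ (K1 ^ (1 / 2 : ℝ) * (F.eval x) ^ (5 / 2 : ℝ)) * (F.eval x) ^ (-5 / 2 : ℝ) := by
          gcongr
      _ = K1 ^ (1 / 2 : ℝ) := by rw [mul_assoc, h8, mul_one]
      _ ≤ _ := le_max_left _ _
  · simp only [eval_pow, eval_mul, eval_X] at h2
    rw [abs_mul, abs_pow, abs_pow, abs_of_pos hx0] at h2
    have h6 : |(Q2 F).eval x| ≤ K2 ^ (1 / 3 : ℝ) * (F.eval x) ^ (5 / 3 : ℝ) * x ^ (-2 / 3 : ℝ) := by
      have h7 : |(Q2 F).eval x| ^ 3 ≤
          (K2 ^ (1 / 3 : ℝ) * (F.eval x) ^ (5 / 3 : ℝ) * x ^ (-2 / 3 : ℝ)) ^ 3 := by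
        rw [mul_pow, mul_pow, ← Real.rpow_natCast (K2 ^ (1 / 3 : ℝ)),
          ← Real.rpow_natCast ((F.eval x) ^ (5 / 3 : ℝ)),
          ← Real.rpow_natCast (x ^ (-2 / 3 : ℝ)), ← Real.rpow_mul hK2.le,
          ← Real.rpow_mul h3.le, ← Real.rpow_mul hx0.le]
        have e5 : (F.eval x) ^ (5 / 3 * ((3 : ℕ) : ℝ)) = (F.eval x) ^ 5 := by
          rw [← Real.rpow_natCast]
          norm_num
        have e2 : x ^ (-2 / 3 * ((3 : ℕ) : ℝ)) = (x ^ 2)⁻¹ := by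
          rw [← Real.rpow_natCast x 2, ← Real.rpow_neg hx0.le]
          norm_num
        have e1 : K2 ^ (1 / 3 * ((3 : ℕ) : ℝ)) = K2 := by
          norm_num
        rw [e5, e2, e1, ← div_eq_mul_inv, le_div_iff₀ (by positivity)]
        linarith
      exact le_of_pow_le_pow_left₀ (by norm_num) (by positivity) h7
    have h8 : (F.eval x) ^ (5 / 3 : ℝ) * (F.eval x) ^ (-5 / 3 : ℝ) = 1 := by
      rw [← Real.rpow_add h3]
      norm_num
    calc |(Q2 F).eval x| * (F.eval x) ^ (-5 / 3 : ℝ)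
        ≤ (K2 ^ (1 / 3 : ℝ) * (F.eval x) ^ (5 / 3 : ℝ) * x ^ (-2 / 3 : ℝ)) *
          (F.eval x) ^ (-5 / 3 : ℝ) := by gcongr
      _ = K2 ^ (1 / 3 : ℝ) * x ^ (-2 / 3 : ℝ) *
          ((F.eval x) ^ (5 / 3 : ℝ) * (F.eval x) ^ (-5 / 3 : ℝ)) := by ring
      _ = K2 ^ (1 / 3 : ℝ) * x ^ (-2 / 3 : ℝ) := by rw [h8, mul_one]
      _ ≤ _ := by
          gcongr
          exact le_max_right _ _

end Pool.PV57
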